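import Mathlib

/-! # The determinant of a skew-symmetric matrix is a square (characteristic not two) -/

namespace SPR24

open Matrix

variable {F : Type*} [Field F]

theorem det_fin2_skew (A : Matrix (Fin 2) (Fin 2) F) (h2 : (2 : F) ≠ 0) (h : Aᵀ = -A) :
    A.det = A 0 1 * A 0 1 := by
  have hd : ∀ i, A i i = 0 := by
    intro i
    have := congrFun (congrFun h i) i
    simp only [transpose_apply, Matrix.neg_apply] at this
    have h' : (2 : F) * A i i = 0 := by linear_combination this
    exact (mul_eq_zero.mp h').resolve_left h2
  have h10 : A 1 0 = - A 0 1 := by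
    have := congrFun (congrFun h 0) 1
    simpa only [transpose_apply, Matrix.neg_apply] using this
  rw [det_fin_two, hd 0, hd 1, h10]
  ring

theorem isSquare_det_skew (h2 : (2 : F) ≠ 0) :
    ∀ (n : ℕ) (ι : Type) [Fintype ι] [DecidableEq ι], Fintype.card ι = n →
      ∀ M : Matrix ι ι F, Mᵀ = -M → IsSquare M.det := by
  intro n
  induction n using Nat.strong_induction_on with
  | _ n ih =>
    intro ι _ _ hcard M hM
    by_cases h0 : M = 0
    · subst h0
      rcases isEmpty_or_nonempty ι with he | he
      · rw [det_isEmpty]; exact ⟨1, by ring⟩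
      · rw [det_zero]; exact ⟨0, by ring⟩
    · have hex : ∃ i j, M i j ≠ 0 := by
        by_contra hcon
        push Not at hcon
        exact h0 (by ext i j; exact hcon i j)
      obtain ⟨i, j, hij⟩ := hex
      have hd : ∀ i, M i i = 0 := by
        intro i
        have := congrFun (congrFun hM i) i
        simp only [transpose_apply, Matrix.neg_apply] at this
        have h' : (2 : F) * M i i = 0 := by linear_combination this
        exact (mul_eq_zero.mp h').resolve_left h2
      have hne : i ≠ j := by
        rintro rfl
        exact hij (hd i)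
      -- the equivalence
      let κ := {k : ι // ¬ (k = i ∨ k = j)}
      let f : Fin 2 → {k : ι // k = i ∨ k = j} := ![⟨i, Or.inl rfl⟩, ⟨j, Or.inr rfl⟩]
      have hf : Function.Bijective f := by
        constructor
        · intro a b hab
          fin_cases a <;> fin_cases b <;> simp_all [f]
        · rintro ⟨k, hk⟩
          rcases hk with rfl | rfl
          · exact ⟨0, rfl⟩
          · exact ⟨1, rfl⟩
      let e : Fin 2 ⊕ κ ≃ ι :=
        (Equiv.sumCongr (Equiv.ofBijective f hf) (Equiv.refl κ)).trans (Equiv.sumCompl _)
      have he0 : e (Sum.inl 0) = i := rfl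
      have he1 : e (Sum.inl 1) = j := rfl
      let N := M.submatrix e e
      have hN : Nᵀ = -N := by
        ext a b
        exact congrFun (congrFun hM (e a)) (e b)
      have hdet : M.det = N.det := (det_submatrix_equiv_self e M).symm
      let A := N.toBlocks₁₁
      let B := N.toBlocks₁₂
      let C := N.toBlocks₂₁
      let D := N.toBlocks₂₂
      have hblocks : N = fromBlocks A B C D := (fromBlocks_toBlocks N).symm
      have hA : Aᵀ = -A := by
        ext a b; exact congrFun (congrFun hN (Sum.inl a)) (Sum.inl b)
      have hD : Dᵀ = -D := by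
        ext a b; exact congrFun (congrFun hN (Sum.inr a)) (Sum.inr b)
      have hB : Bᵀ = -C := by
        ext a b; exact congrFun (congrFun hN (Sum.inr a)) (Sum.inl b)
      have hC : Cᵀ = -B := by
        ext a b; exact congrFun (congrFun hN (Sum.inl a)) (Sum.inr b)
      have hA01 : A 0 1 = M i j := rfl
      have hAdet := det_fin2_skew A h2 hA
      have hAne : A.det ≠ 0 := by
        rw [hAdet, hA01]; exact mul_ne_zero hij hij
      let _inv : Invertible A := A.invertibleOfIsUnitDet (isUnit_iff_ne_zero.mpr hAne)
      have hS : (D - C * ⅟A * B)ᵀ = -(D - C * ⅟A * B) := by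
        rw [transpose_sub, transpose_mul, transpose_mul, hD, hB, hC, invOf_eq_nonsing_inv,
          transpose_nonsing_inv, hA]
        have : (-A)⁻¹ = -A⁻¹ := by
          apply inv_eq_left_inv
          rw [neg_mul_neg]
          exact nonsing_inv_mul A (isUnit_iff_ne_zero.mpr hAne)
        rw [this]
        simp only [Matrix.neg_mul, Matrix.mul_neg, neg_neg, Matrix.mul_assoc]
        abel
      have hcardκ : Fintype.card κ < n := by
        have h1 : Fintype.card (Fin 2 ⊕ κ) = Fintype.card ι := Fintype.card_congr e
        rw [Fintype.card_sum, Fintype.card_fin] at h1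
        omega
      obtain ⟨s, hs⟩ := ih (Fintype.card κ) hcardκ κ rfl (D - C * ⅟A * B) hS
      rw [hdet, hblocks, det_fromBlocks₁₁, hAdet, hs]
      exact ⟨A 0 1 * s, by ring⟩

end SPR24
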