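import Mathlib

/-! # Sums of a polynomial over the points with coordinates in the prime field -/

namespace SPR24

open MvPolynomial

variable {F : Type*} [Field F] {p : ℕ} [hp : Fact p.Prime] [CharP F p]

theorem sum_pow_zmod (k : ℕ) (hk : k < p - 1) :
    ∑ a : ZMod p, (ZMod.castHom (dvd_refl p) F a) ^ k = 0 := by
  have h := FiniteField.sum_pow_lt_card_sub_one (ZMod p) k (by rwa [ZMod.card])
  have h' := congrArg (ZMod.castHom (dvd_refl p) F) h
  rw [map_sum, map_zero] at h'
  simpa only [map_pow] using h'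

theorem sum_eval_zmod {σ : Type*} [Fintype σ] [DecidableEq σ] (P : MvPolynomial σ F)
    (h : P.totalDegree < (p - 1) * Fintype.card σ) :
    ∑ x : σ → ZMod p, eval (fun i => ZMod.castHom (dvd_refl p) F (x i)) P = 0 := by
  calc
    ∑ x : σ → ZMod p, eval (fun i => ZMod.castHom (dvd_refl p) F (x i)) P
      = ∑ x : σ → ZMod p, ∑ d ∈ P.support,
          P.coeff d * ∏ i, (ZMod.castHom (dvd_refl p) F (x i)) ^ d i := by
      simp only [eval_eq']
    _ = ∑ d ∈ P.support, ∑ x : σ → ZMod p,
          P.coeff d * ∏ i, (ZMod.castHom (dvd_refl p) F (x i)) ^ d i := Finset.sum_comm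
    _ = 0 := Finset.sum_eq_zero ?_
  intro d hd
  obtain ⟨i, hi⟩ : ∃ i, d i < p - 1 := P.exists_degree_lt (p - 1) h hd
  rw [← Finset.mul_sum]
  apply mul_eq_zero_of_right
  have hprod := Fintype.prod_sum
    (fun (i : σ) (a : ZMod p) => (ZMod.castHom (dvd_refl p) F a) ^ d i)
  rw [← hprod]
  exact Finset.prod_eq_zero (Finset.mem_univ i) (sum_pow_zmod (d i) hi)

/-- The determinant of a matrix of homogeneous linear forms. -/
theorem det_homogeneous {σ ι : Type*} [Fintype ι] [DecidableEq ι]
    (N : Matrix ι ι (MvPolynomial σ F)) (h : ∀ i j, (N i j).IsHomogeneous 1) :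
    N.det.IsHomogeneous (Fintype.card ι) := by
  rw [Matrix.det_apply]
  apply MvPolynomial.IsHomogeneous.sum
  intro τ _
  have h1 : (∏ i, N (τ i) i).IsHomogeneous (Fintype.card ι) := by
    have := MvPolynomial.IsHomogeneous.prod Finset.univ (fun i => N (τ i) i) (fun _ => 1)
      (fun i _ => h _ _)
    simpa using this
  rcases Int.units_eq_one_or (Equiv.Perm.sign τ) with hs | hs
  · rw [hs, one_smul]; exact h1
  · rw [hs, Units.neg_smul, one_smul]; exact h1.neg

end SPR24
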