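import Mathlib
import Pool.Agent.SPR24.Skew
import Pool.Agent.SPR24.Sum

/-! # Additive families of nonsingular skew-symmetric matrices are small -/

namespace SPR24

open MvPolynomial

variable {F : Type*} [Field F] [Fintype F] {p : ℕ} [hp : Fact p.Prime] [CharP F p]

omit [Fintype F] in
theorem map_zsmul_cast {ι : Type} {A : Type} [AddCommGroup A] [Module (ZMod p) A]
    (L : A →+ Matrix ι ι F) (c : ZMod p) (a : A) :
    L (c • a) = (ZMod.castHom (dvd_refl p) F c) • L a := by
  obtain ⟨n, rfl⟩ : ∃ n : ℕ, (n : ZMod p) = c := ⟨c.val, ZMod.natCast_zmod_val c⟩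
  rw [map_natCast, Nat.cast_smul_eq_nsmul, map_nsmul, Nat.cast_smul_eq_nsmul]

omit [Fintype F] in
theorem cast_pow_char (c : ZMod p) (k : ℕ) :
    (ZMod.castHom (dvd_refl p) F c) ^ (p ^ k) = ZMod.castHom (dvd_refl p) F c := by
  rw [← map_pow, ZMod.pow_card_pow]

/-- **Key lemma.** -/
theorem card_sq_le (hp2 : p ≠ 2) {ι : Type} [Fintype ι] [DecidableEq ι] [Nonempty ι]
    {A : Type} [AddCommGroup A] [Module (ZMod p) A] [Finite A]
    (L : A →+ Matrix ι ι F) (hs : ∀ t, (L t).transpose = -(L t))
    (hi : ∀ t, t ≠ 0 → (L t).det ≠ 0) :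
    Nat.card A ^ 2 ≤ Fintype.card F ^ Fintype.card ι := by
  classical
  obtain ⟨e, -, hq⟩ := FiniteField.card F p
  have hppos : 2 ≤ p := hp.out.two_le
  have hp3 : 3 ≤ p := by omega
  have hodd : p % 2 = 1 := (hp.out.eq_two_or_odd).resolve_left hp2
  have h2 : (2 : F) ≠ 0 := by
    intro h
    have : ((2 : ℕ) : F) = 0 := by exact_mod_cast h
    rw [CharP.cast_eq_zero_iff F p] at this
    have := Nat.le_of_dvd (by norm_num) this
    omega
  have hfin : Module.Finite (ZMod p) A := Module.Finite.of_finite
  set D := Module.finrank (ZMod p) A with hD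
  have hcardA : Nat.card A = p ^ D := by
    rw [Module.natCard_eq_pow_finrank (K := ZMod p) (V := A), Nat.card_zmod]
  rw [hcardA, hq, ← pow_mul, ← pow_mul]
  by_contra hcon
  have hlt : (e : ℕ) * Fintype.card ι < D * 2 := by
    by_contra hle
    exact hcon (Nat.pow_le_pow_right (by omega) (by omega))
  have hDpos : 0 < D := by
    rcases Nat.eq_zero_or_pos D with h | h
    · rw [h] at hlt; omega
    · exact h
  let b : Module.Basis (Fin D) (ZMod p) A := Module.finBasis (ZMod p) A
  let N : ℕ → Matrix ι ι (MvPolynomial (Fin D) F) :=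
    fun k i j => ∑ d, C ((L (b d) i j) ^ (p ^ k)) * X d
  have hNhom : ∀ k i j, (N k i j).IsHomogeneous 1 := by
    intro k i j
    apply MvPolynomial.IsHomogeneous.sum
    intro d _
    exact isHomogeneous_C_mul_X _ _
  let c : ZMod p →+* F := ZMod.castHom (dvd_refl p) F
  have heval : ∀ (x : Fin D → ZMod p) (k : ℕ),
      eval (fun i => c (x i)) (N k).det = (L (∑ d, x d • b d)).det ^ (p ^ k) := by
    intro x k
    rw [RingHom.map_det]
    have h1 : (eval (fun i => c (x i))).mapMatrix (N k)
        = (iterateFrobenius F p k).mapMatrix (L (∑ d, x d • b d)) := by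
      ext i j
      have hl : (eval (fun i => c (x i))).mapMatrix (N k) i j
          = eval (fun i => c (x i)) (N k i j) := rfl
      have hr : (iterateFrobenius F p k).mapMatrix (L (∑ d, x d • b d)) i j
          = iterateFrobenius F p k (L (∑ d, x d • b d) i j) := rfl
      have hN : N k i j = ∑ d, C ((L (b d) i j) ^ (p ^ k)) * X d := rfl
      rw [hl, hr, hN, map_sum, map_sum, Matrix.sum_apply, map_sum]
      apply Finset.sum_congr rfl
      intro d _
      rw [map_zsmul_cast, Matrix.smul_apply, smul_eq_mul, map_mul, map_mul, eval_C, eval_X,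
        iterateFrobenius_def, iterateFrobenius_def, cast_pow_char]
      ring
    rw [h1, ← RingHom.map_det, iterateFrobenius_def]
  let P : MvPolynomial (Fin D) F := ∏ k ∈ Finset.range e, (N k).det ^ ((p - 1) / 2)
  have hdeg : P.totalDegree ≤ e * ((p - 1) / 2 * Fintype.card ι) := by
    calc P.totalDegree ≤ ∑ k ∈ Finset.range e, ((N k).det ^ ((p - 1) / 2)).totalDegree :=
          totalDegree_finsetProd _ _
      _ ≤ ∑ k ∈ Finset.range e, (p - 1) / 2 * Fintype.card ι := by
          apply Finset.sum_le_sum
          intro k _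
          refine (totalDegree_pow _ _).trans ?_
          exact Nat.mul_le_mul_left _ (det_homogeneous (N k) (hNhom k)).totalDegree_le
      _ = e * ((p - 1) / 2 * Fintype.card ι) := by
          rw [Finset.sum_const, Finset.card_range, smul_eq_mul]
  have hhalf : 2 * ((p - 1) / 2) = p - 1 := by omega
  have hdeg' : P.totalDegree < (p - 1) * Fintype.card (Fin D) := by
    rw [Fintype.card_fin]
    refine lt_of_le_of_lt hdeg ?_
    have h3 : 0 < (p - 1) / 2 := by omega
    calc (e : ℕ) * ((p - 1) / 2 * Fintype.card ι)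
        = (p - 1) / 2 * (e * Fintype.card ι) := by ring
      _ < (p - 1) / 2 * (D * 2) := Nat.mul_lt_mul_of_pos_left hlt h3
      _ = (2 * ((p - 1) / 2)) * D := by ring
      _ = (p - 1) * D := by rw [hhalf]
  have hsum := sum_eval_zmod (p := p) P hdeg'
  have hval : ∀ x : Fin D → ZMod p, eval (fun i => c (x i)) P = 1 - (if x = 0 then 1 else 0) := by
    intro x
    have hP : eval (fun i => c (x i)) P
        = ∏ k ∈ Finset.range e, ((L (∑ d, x d • b d)).det ^ (p ^ k)) ^ ((p - 1) / 2) := by
      simp only [P, map_prod, map_pow, heval]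
    rw [hP]
    by_cases hx : x = 0
    · rw [if_pos hx, sub_self]
      apply Finset.prod_eq_zero (Finset.mem_range.mpr e.pos)
      have : ∑ d, x d • b d = 0 := by simp [hx]
      rw [this, map_zero, Matrix.det_zero, zero_pow (by positivity), zero_pow (by omega)]
    · rw [if_neg hx, sub_zero]
      have ht : ∑ d, x d • b d ≠ 0 := by
        intro h
        apply hx
        have hli := Fintype.linearIndependent_iff.mp b.linearIndependent x h
        ext d
        rw [hli d]
        rfl
      obtain ⟨s, hs'⟩ := isSquare_det_skew h2 (Fintype.card ι) ι rfl _ (hs (∑ d, x d • b d))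
      have hsne : s ≠ 0 := by
        intro h
        apply hi _ ht
        rw [hs', h, mul_zero]
      have h4 : ∀ k ∈ Finset.range (e : ℕ),
          ((L (∑ d, x d • b d)).det ^ (p ^ k)) ^ ((p - 1) / 2) = s ^ (p ^ k * (p - 1)) := by
        intro k _
        rw [hs', ← pow_two, ← pow_mul, ← pow_mul, ← hhalf]
        congr 1
        simp only [Nat.mul_div_cancel_left _ (show 0 < 2 by norm_num)]
        ring
      rw [Finset.prod_congr rfl h4, Finset.prod_pow_eq_pow_sum, ← Finset.sum_mul]
      have h5 : (∑ i ∈ Finset.range (e : ℕ), p ^ i) * (p - 1) = Fintype.card F - 1 := by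
        have h6 := geom_sum_mul_add (p - 1) (e : ℕ)
        rw [Nat.sub_add_cancel (by omega : 1 ≤ p)] at h6
        rw [hq]
        omega
      rw [h5]
      exact FiniteField.pow_card_sub_one_eq_one s hsne
  have hsum2 : ∑ x : Fin D → ZMod p, ((1 : F) - (if x = 0 then 1 else 0)) = 0 := by
    exact (Finset.sum_congr rfl (fun x _ => (hval x).symm)).trans hsum
  rw [Finset.sum_sub_distrib, Finset.sum_const, Finset.sum_ite_eq' Finset.univ (0 : Fin D → ZMod p),
    if_pos (Finset.mem_univ _), Finset.card_univ, Fintype.card_fun, ZMod.card, Fintype.card_fin,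
    nsmul_eq_mul, Nat.cast_pow, CharP.cast_eq_zero, zero_pow (by omega)] at hsum2
  simp at hsum2

end SPR24
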