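import Mathlib
import Pool.Agent.SPR24.Key

/-! # Spreads of hyperbolic quadrics: graph coordinates with respect to one member -/

namespace SPR24

open Matrix

variable {F : Type} [Field F] {m : ℕ}

/-- The hyperbolic quadratic form `x₀y₀ + ... + x_{m-1}y_{m-1}` on `F^m × F^m`. -/
def qf (v : (Fin m → F) × (Fin m → F)) : F := ∑ i, v.1 i * v.2 i

/-- A generator: a totally singular subspace of vector space dimension `m`. -/
def IsGenerator (W : Submodule F ((Fin m → F) × (Fin m → F))) : Prop :=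
  (∀ v ∈ W, qf v = 0) ∧ Module.finrank F W = m

/-- A spread: a set of generators such that every nonzero singular vector lies in exactly one
of them. -/
def IsSpread (S : Set (Submodule F ((Fin m → F) × (Fin m → F)))) : Prop :=
  (∀ W ∈ S, IsGenerator W) ∧
    ∀ v : (Fin m → F) × (Fin m → F), v ≠ 0 → qf v = 0 → ∃! W, W ∈ S ∧ v ∈ W

/-- The generator `{(x, 0)}`. -/
def axis (F : Type) [Field F] (m : ℕ) : Submodule F ((Fin m → F) × (Fin m → F)) :=
  LinearMap.range (LinearMap.inl F (Fin m → F) (Fin m → F))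

/-- The subspace `{(M y, y)}`. -/
def graph (M : Matrix (Fin m) (Fin m) F) : Submodule F ((Fin m → F) × (Fin m → F)) :=
  LinearMap.range ((Matrix.mulVecLin M).prod LinearMap.id)

/-- The isometry `(x, y) ↦ (x + A y, y)` (for skew-symmetric `A`), as a linear map. -/
def transl (A : Matrix (Fin m) (Fin m) F) :
    ((Fin m → F) × (Fin m → F)) →ₗ[F] ((Fin m → F) × (Fin m → F)) :=
  (LinearMap.fst F (Fin m → F) (Fin m → F) +
    (Matrix.mulVecLin A).comp (LinearMap.snd F (Fin m → F) (Fin m → F))).prod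
    (LinearMap.snd F (Fin m → F) (Fin m → F))

theorem mem_axis (v : (Fin m → F) × (Fin m → F)) : v ∈ axis F m ↔ v.2 = 0 := by
  unfold axis
  rw [LinearMap.mem_range]
  constructor
  · rintro ⟨x, rfl⟩; rfl
  · intro h
    exact ⟨v.1, Prod.ext rfl h.symm⟩

theorem mem_graph (M : Matrix (Fin m) (Fin m) F) (v : (Fin m → F) × (Fin m → F)) :
    v ∈ graph M ↔ v.1 = M *ᵥ v.2 := by
  unfold graph
  rw [LinearMap.mem_range]
  constructor
  · rintro ⟨y, rfl⟩; rfl
  · intro h
    exact ⟨v.2, Prod.ext h.symm rfl⟩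

theorem graph_inj {M N : Matrix (Fin m) (Fin m) F} (h : graph M = graph N) : M = N := by
  apply Matrix.ext_of_mulVec_single
  intro i
  have h1 : (M *ᵥ Pi.single i 1, Pi.single i 1) ∈ graph M := (mem_graph _ _).mpr rfl
  rw [h, mem_graph] at h1
  exact h1

theorem graph_ne_axis (hm : 0 < m) (M : Matrix (Fin m) (Fin m) F) : graph M ≠ axis F m := by
  intro h
  have h1 : (M *ᵥ Pi.single ⟨0, hm⟩ 1, Pi.single ⟨0, hm⟩ (1 : F)) ∈ graph M :=
    (mem_graph _ _).mpr rfl
  rw [h, mem_axis] at h1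
  have := congrFun h1 ⟨0, hm⟩
  simp at this

theorem map_transl_graph (A M : Matrix (Fin m) (Fin m) F) :
    (graph M).map (transl A) = graph (M + A) := by
  ext v
  rw [Submodule.mem_map, mem_graph]
  constructor
  · rintro ⟨w, hw, rfl⟩
    rw [mem_graph] at hw
    change w.1 + A *ᵥ w.2 = (M + A) *ᵥ w.2
    rw [hw, Matrix.add_mulVec]
  · intro h
    refine ⟨(M *ᵥ v.2, v.2), (mem_graph _ _).mpr rfl, ?_⟩
    apply Prod.ext
    · change M *ᵥ v.2 + A *ᵥ v.2 = v.1
      rw [h, Matrix.add_mulVec]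
    · rfl

theorem skew_of_graph {M : Matrix (Fin m) (Fin m) F} (h : ∀ v ∈ graph M, qf v = 0) :
    Mᵀ = -M := by
  have hq : ∀ y : Fin m → F, (M *ᵥ y) ⬝ᵥ y = 0 := by
    intro y
    exact h (M *ᵥ y, y) ((mem_graph _ _).mpr rfl)
  ext i j
  rw [Matrix.neg_apply, transpose_apply]
  have h1 := hq (Pi.single i 1)
  have h2 := hq (Pi.single j 1)
  have h3 := hq (Pi.single i 1 + Pi.single j 1)
  rw [Matrix.mulVec_add, add_dotProduct, dotProduct_add, dotProduct_add, h1, h2] at h3
  simp only [Matrix.mulVec_single_one, dotProduct_single_one, zero_add, add_zero] at h3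
  change M j i + M i j = 0 at h3
  linear_combination h3

variable {S : Set (Submodule F ((Fin m → F) × (Fin m → F)))}

theorem det_ne_zero_of_mem (hS : IsSpread S) {M N : Matrix (Fin m) (Fin m) F}
    (hM : graph M ∈ S) (hN : graph N ∈ S) (hne : M ≠ N) : (M - N).det ≠ 0 := by
  intro hdet
  obtain ⟨y, hy, h0⟩ := Matrix.exists_mulVec_eq_zero_iff.mpr hdet
  rw [Matrix.sub_mulVec, sub_eq_zero] at h0
  have hv0 : ((M *ᵥ y, y) : (Fin m → F) × (Fin m → F)) ≠ 0 := by
    intro h
    exact hy (congrArg Prod.snd h)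
  have hvM : ((M *ᵥ y, y) : (Fin m → F) × (Fin m → F)) ∈ graph M := (mem_graph _ _).mpr rfl
  have hvN : ((M *ᵥ y, y) : (Fin m → F) × (Fin m → F)) ∈ graph N := (mem_graph _ _).mpr h0
  have hq := (hS.1 _ hM).1 _ hvM
  obtain ⟨W, -, hW⟩ := hS.2 _ hv0 hq
  have h1 := hW _ ⟨hM, hvM⟩
  have h2 := hW _ ⟨hN, hvN⟩
  exact hne (graph_inj (h1.trans h2.symm))

/-- Every member of a spread other than the axis is a graph. -/
theorem exists_graph (hS : IsSpread S) (hE : axis F m ∈ S)
    {W : Submodule F ((Fin m → F) × (Fin m → F))} (hW : W ∈ S) (hne : W ≠ axis F m) :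
    ∃ M, W = graph M := by
  let f : W →ₗ[F] (Fin m → F) := (LinearMap.snd F (Fin m → F) (Fin m → F)).comp W.subtype
  have hinj : Function.Injective f := by
    rw [← LinearMap.ker_eq_bot, LinearMap.ker_eq_bot']
    intro w hw
    by_contra hw0
    have hw0' : (w : (Fin m → F) × (Fin m → F)) ≠ 0 := by
      intro h
      exact hw0 (Subtype.ext h)
    obtain ⟨W', -, hW'⟩ := hS.2 _ hw0' ((hS.1 _ hW).1 _ w.2)
    have h1 := hW' _ ⟨hW, w.2⟩
    have h2 := hW' _ ⟨hE, (mem_axis _).mpr hw⟩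
    exact hne (h1.trans h2.symm)
  have hfr : Module.finrank F W = Module.finrank F (Fin m → F) := by
    rw [(hS.1 _ hW).2, Module.finrank_fin_fun]
  have hsurj : Function.Surjective f :=
    (LinearMap.injective_iff_surjective_of_finrank_eq_finrank hfr).mp hinj
  let e := LinearEquiv.ofBijective f ⟨hinj, hsurj⟩
  let g : (Fin m → F) →ₗ[F] (Fin m → F) :=
    ((LinearMap.fst F (Fin m → F) (Fin m → F)).comp W.subtype).comp e.symm.toLinearMap
  refine ⟨LinearMap.toMatrix' g, ?_⟩
  have hg : ∀ w : W, g (w : (Fin m → F) × (Fin m → F)).2 = (w : (Fin m → F) × (Fin m → F)).1 := by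
    intro w
    have h1 : e w = (w : (Fin m → F) × (Fin m → F)).2 := rfl
    have h2 : e.symm (w : (Fin m → F) × (Fin m → F)).2 = w := by rw [← h1, e.symm_apply_apply]
    change ((e.symm (w : (Fin m → F) × (Fin m → F)).2 : W) : (Fin m → F) × (Fin m → F)).1 = _
    rw [h2]
  ext v
  rw [mem_graph, LinearMap.toMatrix'_mulVec]
  constructor
  · intro hv
    exact (hg ⟨v, hv⟩).symm
  · intro hv
    have h3 : e (e.symm v.2) = v.2 := e.apply_symm_apply _
    have h4 : ((e.symm v.2 : W) : (Fin m → F) × (Fin m → F)) = v := by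
      apply Prod.ext
      · exact hv.symm
      · exact h3
    rw [← h4]
    exact (e.symm v.2).2

end SPR24
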