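import Mathlib
import Pool.Agent.SPR24.Spread

/-! # Short names for isometries preserving a spread -/

namespace SPR24

variable {F : Type} [Field F] {m : ℕ}

/-- Linear maps of `F^m × F^m` to itself. -/
abbrev EndV (F : Type) [Field F] (m : ℕ) : Type :=
  ((Fin m → F) × (Fin m → F)) →ₗ[F] ((Fin m → F) × (Fin m → F))

/-- `g` is an isometry of `qf` that maps members of `S` to members of `S`. -/
def IsAut (S : Set (Submodule F ((Fin m → F) × (Fin m → F)))) (g : EndV F m) : Prop :=
  (∀ v, qf (g v) = qf v) ∧ ∀ W ∈ S, W.map g ∈ S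

/-- The space of vectors fixed by `g`, that is `ker (g - 1)`. -/
def fixSpace (g : EndV F m) : Submodule F ((Fin m → F) × (Fin m → F)) :=
  LinearMap.ker (g - LinearMap.id)

/-- `ker (g - 1)` and `im (g - 1)` meet only in zero. -/
def IsSemi (g : EndV F m) : Prop :=
  fixSpace g ⊓ LinearMap.range (g - LinearMap.id) = ⊥

/-- `g` maps `W` onto itself. -/
def Fixes (g : EndV F m) (W : Submodule F ((Fin m → F) × (Fin m → F))) : Prop :=
  W.map g = W

/-- Vector space dimension. -/
noncomputable def vdim (W : Submodule F ((Fin m → F) × (Fin m → F))) : ℕ :=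
  Module.finrank F W

/-- Dimension of the intersection of two subspaces. -/
noncomputable def meetDim (W U : Submodule F ((Fin m → F) × (Fin m → F))) : ℕ :=
  Module.finrank F (W ⊓ U : Submodule F ((Fin m → F) × (Fin m → F)))

/-- `t` has square `1` and is neither `1` nor `-1`. -/
def IsInvol (t : EndV F m) : Prop :=
  (∀ v, t (t v) = v) ∧ (∃ v, t v ≠ v) ∧ ∃ v, t v ≠ -v

theorem mem_fixSpace (g : EndV F m) (v : (Fin m → F) × (Fin m → F)) :
    v ∈ fixSpace g ↔ g v = v := by
  unfold fixSpace
  rw [LinearMap.mem_ker, LinearMap.sub_apply, LinearMap.id_apply, sub_eq_zero]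

theorem fixSpace_eq (g : EndV F m) : fixSpace g = Module.End.eigenspace g (1 : F) := by
  ext v
  rw [mem_fixSpace, Module.End.mem_eigenspace_iff, one_smul]

theorem fixSpace_neg_eq (g : EndV F m) : fixSpace (-g) = Module.End.eigenspace g (-1 : F) := by
  ext v
  rw [mem_fixSpace, Module.End.mem_eigenspace_iff, neg_one_smul, LinearMap.neg_apply,
    neg_eq_iff_eq_neg]

theorem two_ne_zero_of_odd [Fintype F] (hq : Odd (Fintype.card F)) : (2 : F) ≠ 0 := by
  apply Ring.two_ne_zero
  intro hc
  have := (FiniteField.even_card_iff_char_two (F := F)).mp hc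
  rw [← Nat.even_iff] at this
  exact (Nat.not_even_iff_odd.mpr hq) this

theorem spread_nonempty (hm : 0 < m) {S : Set (Submodule F ((Fin m → F) × (Fin m → F)))}
    (hS : IsSpread S) : S.Nonempty := by
  have hv0 : ((Pi.single ⟨0, hm⟩ 1, 0) : (Fin m → F) × (Fin m → F)) ≠ 0 := by
    intro h
    have := congrFun (congrArg Prod.fst h) ⟨0, hm⟩
    simp at this
  obtain ⟨W, ⟨hW, -⟩, -⟩ := hS.2 _ hv0 (by simp [qf])
  exact ⟨W, hW⟩

theorem finrank_V : Module.finrank F ((Fin m → F) × (Fin m → F)) = 2 * m := by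
  rw [Module.finrank_prod, Module.finrank_fin_fun]
  ring

end SPR24
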