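import Mathlib

/-! # Involutions preserving a spread of a hyperbolic quadric: abstract part -/

namespace SPR24

/-- A quadratic space with nondegenerate polar form. -/
structure QS (F V : Type) [Field F] [AddCommGroup V] [Module F V] where
  Q : V → F
  B : V →ₗ[F] V →ₗ[F] F
  add : ∀ v w, Q (v + w) = Q v + Q w + B v w
  diag : ∀ v, B v v = 2 * Q v
  nd : ∀ v, (∀ w, B v w = 0) → v = 0

namespace QS

variable {F V : Type} [Field F] [AddCommGroup V] [Module F V] (X : QS F V)

theorem symm (v w : V) : X.B v w = X.B w v := by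
  have h1 := X.add v w
  have h2 := X.add w v
  rw [add_comm w v, h1] at h2
  linear_combination h2

theorem Qsmul (h2 : (2 : F) ≠ 0) (a : F) (v : V) : X.Q (a • v) = a * a * X.Q v := by
  have h := X.diag (a • v)
  simp only [map_smul, LinearMap.smul_apply, smul_eq_mul, X.diag v] at h
  have h3 : (2 : F) * (X.Q (a • v) - a * a * X.Q v) = 0 := by linear_combination -h
  exact sub_eq_zero.mp ((mul_eq_zero.mp h3).resolve_left h2)

theorem tot {W : Submodule F V} (hW : ∀ v ∈ W, X.Q v = 0) {v w : V} (hv : v ∈ W) (hw : w ∈ W) :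
    X.B v w = 0 := by
  have h := X.add v w
  rw [hW _ hv, hW _ hw, hW _ (W.add_mem hv hw)] at h
  linear_combination -h

variable (t : V →ₗ[F] V) (ht2 : ∀ v, t (t v) = v) (htQ : ∀ v, X.Q (t v) = X.Q v)

include htQ in
theorem tB (v w : V) : X.B (t v) (t w) = X.B v w := by
  have h1 := X.add (t v) (t w)
  rw [← map_add, htQ, htQ, htQ, X.add v w] at h1
  linear_combination -h1

include htQ in
theorem orth (h2 : (2 : F) ≠ 0) {x y : V} (hx : t x = x) (hy : t y = -y) : X.B x y = 0 := by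
  have h := X.tB t htQ x y
  rw [hx, hy, map_neg] at h
  have h3 : (2 : F) * X.B x y = 0 := by linear_combination -h
  exact (mul_eq_zero.mp h3).resolve_left h2

include ht2 in
omit X in
theorem decomp (h2 : (2 : F) ≠ 0) (v : V) : ∃ x y, t x = x ∧ t y = -y ∧ v = x + y ∧
    x = (2⁻¹ : F) • (v + t v) ∧ y = (2⁻¹ : F) • (v - t v) := by
  refine ⟨(2⁻¹ : F) • (v + t v), (2⁻¹ : F) • (v - t v), ?_, ?_, ?_, rfl, rfl⟩
  · rw [map_smul, map_add, ht2, add_comm]
  · rw [map_smul, map_sub, ht2, ← smul_neg, neg_sub]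
  · rw [← smul_add]
    have : v + t v + (v - t v) = (2 : F) • v := by rw [two_smul]; abel
    rw [this, smul_smul, inv_mul_cancel₀ h2, one_smul]

/-- A vector of the `ε`-eigenspace orthogonal to that eigenspace is zero. -/
theorem nd_plus (h2 : (2 : F) ≠ 0) (ht2 : ∀ v, t (t v) = v) (htQ : ∀ v, X.Q (t v) = X.Q v)
    {x : V} (hx : t x = x) (h : ∀ w, t w = w → X.B x w = 0) : x = 0 := by
  apply X.nd
  intro w
  obtain ⟨a, b, ha, hb, hab, -, -⟩ := decomp t ht2 h2 w
  rw [hab, map_add, h a ha, X.orth t htQ h2 hx hb, add_zero]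

/-- If `t x = x ≠ 0`, there is a nonsingular vector fixed by `t`. -/
theorem exists_nonsing (h2 : (2 : F) ≠ 0) (ht2 : ∀ v, t (t v) = v)
    (htQ : ∀ v, X.Q (t v) = X.Q v) {x : V} (hx : t x = x) (hx0 : x ≠ 0) :
    ∃ z, t z = z ∧ X.Q z ≠ 0 := by
  by_contra hcon
  push Not at hcon
  apply hx0
  apply X.nd_plus t h2 ht2 htQ hx
  intro w hw
  have h := X.add x w
  rw [hcon x hx, hcon w hw, hcon (x + w) (by rw [map_add, hx, hw])] at h
  linear_combination -h

/-- In a nondegenerate eigenspace with a singular vector every value is represented. -/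
theorem universal (h2 : (2 : F) ≠ 0) (ht2 : ∀ v, t (t v) = v)
    (htQ : ∀ v, X.Q (t v) = X.Q v) {x : V} (hx : t x = x) (hx0 : x ≠ 0) (hQx : X.Q x = 0)
    (c : F) : ∃ z, t z = z ∧ X.Q z = c := by
  have hex : ∃ w, t w = w ∧ X.B x w ≠ 0 := by
    by_contra hcon
    push Not at hcon
    exact hx0 (X.nd_plus t h2 ht2 htQ hx hcon)
  obtain ⟨w, hw, hB⟩ := hex
  refine ⟨((c - X.Q w) / X.B x w) • x + w, ?_, ?_⟩
  · rw [map_add, map_smul, hx, hw]
  · rw [X.add, X.Qsmul h2, hQx, map_smul, LinearMap.smul_apply, smul_eq_mul,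
      div_mul_cancel₀ _ hB]
    ring

/-- **Step A.** If `t` maps every singular vector `v` into a totally singular subspace containing
`v`, then one of the eigenspaces is zero. -/
theorem stepA (h2 : (2 : F) ≠ 0) (ht2 : ∀ v, t (t v) = v)
    (htQ : ∀ v, X.Q (t v) = X.Q v)
    (hall : ∀ v, X.Q v = 0 → X.B v (t v) = 0)
    {x : V} (hx : t x = x) (hx0 : x ≠ 0) (hQx : X.Q x = 0) {y : V} (hy : t y = -y)
    (hy0 : y ≠ 0) : False := by
  -- the operator `-t` and its fixed vector `y`
  have hmQ : ∀ v, X.Q ((-t) v) = X.Q v := by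
    intro v
    have h1 : (-t) v = (-1 : F) • (t v) := by rw [LinearMap.neg_apply, neg_one_smul]
    rw [h1, X.Qsmul h2, htQ]; ring
  have hm2 : ∀ v, (-t) ((-t) v) = v := by
    intro v
    rw [LinearMap.neg_apply, LinearMap.neg_apply, map_neg, neg_neg, ht2]
  obtain ⟨z, hz, hQz⟩ := X.exists_nonsing (-t) h2 hm2 hmQ
    (x := y) (by rw [LinearMap.neg_apply, hy, neg_neg]) hy0
  have hz' : t z = -z := by
    rw [LinearMap.neg_apply] at hz
    rw [← neg_eq_iff_eq_neg]; exact hz
  obtain ⟨u, hu, hQu⟩ := X.universal t h2 ht2 htQ hx hx0 hQx (-X.Q z)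
  have hor := X.orth t htQ h2 hu hz'
  have hsing : X.Q (u + z) = 0 := by rw [X.add, hQu, hor]; ring
  have h := hall _ hsing
  have htuz : t (u + z) = u + -z := by rw [map_add, hu, hz']
  rw [htuz] at h
  simp only [map_add, map_neg, LinearMap.add_apply, hor, X.symm z u, X.diag, hQu] at h
  have h4 : (2 : F) * (2 * X.Q z) = 0 := by linear_combination -h
  exact hQz ((mul_eq_zero.mp ((mul_eq_zero.mp h4).resolve_left h2)).resolve_left h2)

end QS

end SPR24
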