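import Mathlib
import Pool.Agent.SPR24.Inv

/-! # Involutions preserving a spread of a hyperbolic quadric: counting dimensions -/

namespace SPR24

namespace QS

open MvPolynomial in
/-- Chevalley-Warning: a subspace of dimension at least three has a nonzero singular vector. -/
theorem exists_singular {F V : Type} [Field F] [Fintype F] [AddCommGroup V] [Module F V]
    [FiniteDimensional F V] (Y : QS F V) (h2 : (2 : F) ≠ 0) (U : Submodule F V)
    (hU : 3 ≤ Module.finrank F U) : ∃ u ∈ U, u ≠ 0 ∧ Y.Q u = 0 := by
  classical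
  let k := Module.finrank F U
  let b : Module.Basis (Fin k) F U := Module.finBasis F U
  let P : MvPolynomial (Fin k) F :=
    ∑ i, ∑ j, C (2⁻¹ * Y.B (b i : V) (b j : V)) * MvPolynomial.X i * MvPolynomial.X j
  have hhom : P.IsHomogeneous 2 := by
    apply MvPolynomial.IsHomogeneous.sum
    intro i _
    apply MvPolynomial.IsHomogeneous.sum
    intro j _
    exact (isHomogeneous_C_mul_X _ _).mul (isHomogeneous_X _ _)
  have hev : ∀ c : Fin k → F, eval c P = Y.Q (∑ i, c i • (b i : V)) := by
    intro c
    have h1 := Y.diag (∑ i, c i • (b i : V))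
    have h3 : Y.B (∑ i, c i • (b i : V)) (∑ i, c i • (b i : V)) = 2 * eval c P := by
      simp only [P, map_sum, map_mul, eval_C, eval_X, LinearMap.sum_apply, map_smul,
        LinearMap.smul_apply, smul_eq_mul, Finset.mul_sum]
      rw [Finset.sum_comm]
      apply Finset.sum_congr rfl
      intro i _
      apply Finset.sum_congr rfl
      intro j _
      have h4 := mul_inv_cancel₀ h2
      linear_combination (-(c i * c j * Y.B (b i : V) (b j : V))) * h4
    rw [h1] at h3
    exact (mul_left_cancel₀ h2 h3).symm
  obtain ⟨e, hprime, hcardF⟩ := FiniteField.card F (ringChar F)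
  have : Fact (ringChar F).Prime := ⟨hprime⟩
  have : CharP F (ringChar F) := ringChar.charP F
  have hdeg : P.totalDegree < Fintype.card (Fin k) := by
    rw [Fintype.card_fin]
    exact lt_of_le_of_lt hhom.totalDegree_le hU
  have hdvd := char_dvd_card_solutions (K := F) (ringChar F) hdeg
  by_contra hcon
  push Not at hcon
  have huniq : ∀ c : Fin k → F, eval c P = 0 → c = 0 := by
    intro c hc
    rw [hev] at hc
    have hmem : ∑ i, c i • (b i : V) ∈ U :=
      U.sum_mem (fun i _ => U.smul_mem _ (b i).2)
    by_contra hc0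
    have hne : ∑ i, c i • (b i : V) ≠ 0 := by
      intro h0
      apply hc0
      have h4 : ∑ i, c i • b i = 0 := by
        apply Subtype.ext
        simpa using h0
      have := Fintype.linearIndependent_iff.mp b.linearIndependent c h4
      ext i
      exact this i
    exact hcon _ hmem hne hc
  have hzero : eval (0 : Fin k → F) P = 0 := by
    rw [hev]
    have h5 : ∑ i, (0 : Fin k → F) i • (b i : V) = 0 := by simp
    rw [h5]
    have := Y.Qsmul h2 0 0
    simpa using this
  have hcard1 : Fintype.card {x : Fin k → F // eval x P = 0} = 1 := by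
    rw [Fintype.card_eq_one_iff]
    exact ⟨⟨0, hzero⟩, fun y => Subtype.ext (huniq _ y.2)⟩
  rw [hcard1] at hdvd
  exact hprime.one_lt.ne' (Nat.dvd_one.mp hdvd)

variable {F V : Type} [Field F] [AddCommGroup V] [Module F V] [FiniteDimensional F V]
  (X : QS F V)

/-- Three pairwise disjoint maximal totally singular subspaces have even dimension. -/
theorem even_of_three (h2 : (2 : F) ≠ 0) {U A1 A2 A3 : Submodule F V} {a : ℕ}
    (h1U : A1 ≤ U) (h2U : A2 ≤ U) (h3U : A3 ≤ U)
    (s1 : ∀ v ∈ A1, X.Q v = 0) (s2 : ∀ v ∈ A2, X.Q v = 0) (s3 : ∀ v ∈ A3, X.Q v = 0)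
    (d12 : A1 ⊓ A2 = ⊥) (d13 : A1 ⊓ A3 = ⊥) (d23 : A2 ⊓ A3 = ⊥)
    (f1 : Module.finrank F A1 = a) (f2 : Module.finrank F A2 = a)
    (f3 : Module.finrank F A3 = a) (fU : Module.finrank F U = 2 * a)
    (ndU : ∀ x ∈ U, (∀ w ∈ U, X.B x w = 0) → x = 0) : Even a := by
  have hsup2 : A1 ⊔ A2 = U := by
    apply Submodule.eq_of_le_of_finrank_eq (sup_le h1U h2U)
    have := Submodule.finrank_sup_add_finrank_inf_eq A1 A2
    rw [d12, finrank_bot] at this
    omega
  have hsup3 : A1 ⊔ A3 = U := by
    apply Submodule.eq_of_le_of_finrank_eq (sup_le h1U h3U)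
    have := Submodule.finrank_sup_add_finrank_inf_eq A1 A3
    rw [d13, finrank_bot] at this
    omega
  let z : Module.Basis (Fin a) F A3 := Module.finBasisOfFinrankEq F A3 f3
  have hdec : ∀ i, ∃ x ∈ A1, ∃ y ∈ A2, x + y = (z i : V) := by
    intro i
    have hm : (z i : V) ∈ A1 ⊔ A2 := by rw [hsup2]; exact h3U (z i).2
    exact Submodule.mem_sup.mp hm
  choose x hx y hy hxy using hdec
  let G : Matrix (Fin a) (Fin a) F := fun i j => X.B (x i) (y j)
  have hskew : G.transpose = -G := by
    ext i j
    change X.B (x j) (y i) = -(X.B (x i) (y j))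
    have h := X.tot s3 (z i).2 (z j).2
    rw [← hxy i, ← hxy j] at h
    simp only [map_add, LinearMap.add_apply, X.tot s1 (hx i) (hx j), X.tot s2 (hy i) (hy j)] at h
    rw [X.symm (y i) (x j)] at h
    linear_combination h
  have hdet : G.det ≠ 0 := by
    intro h0
    obtain ⟨c, hc, hcG⟩ := Matrix.exists_vecMul_eq_zero_iff.mpr h0
    let xs : V := ∑ i, c i • x i
    have hxs : xs ∈ A1 := A1.sum_mem (fun i _ => A1.smul_mem _ (hx i))
    have hB : ∀ j, X.B xs (y j) = 0 := by
      intro j
      have := congrFun hcG j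
      simp only [xs, map_sum, map_smul, LinearMap.sum_apply, LinearMap.smul_apply, smul_eq_mul]
      exact this
    have hB3 : ∀ w ∈ A3, X.B xs w = 0 := by
      intro w hw
      have h1 := z.sum_repr ⟨w, hw⟩
      have h3 : w = ∑ j, z.repr ⟨w, hw⟩ j • (z j : V) := by
        have h1' := congrArg (A3.subtype) h1
        rw [map_sum] at h1'
        simp only [map_smul, Submodule.subtype_apply] at h1'
        exact h1'.symm
      rw [h3, map_sum]
      apply Finset.sum_eq_zero
      intro j _
      rw [map_smul, ← hxy j, map_add, X.tot s1 hxs (hx j), hB j, add_zero, smul_zero]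
    have hxs0 : xs = 0 := by
      apply ndU xs (h1U hxs)
      intro w hw
      rw [← hsup3] at hw
      obtain ⟨p, hp, r, hr, rfl⟩ := Submodule.mem_sup.mp hw
      rw [map_add, X.tot s1 hxs hp, hB3 r hr, add_zero]
    have hzs : (∑ i, c i • (z i : V)) ∈ A2 ⊓ A3 := by
      constructor
      · have h4 : ∑ i, c i • (z i : V) = xs + ∑ i, c i • y i := by
          simp only [xs, ← Finset.sum_add_distrib, ← smul_add, hxy]
        rw [h4, hxs0, zero_add]
        exact A2.sum_mem (fun i _ => A2.smul_mem _ (hy i))
      · exact A3.sum_mem (fun i _ => A3.smul_mem _ (z i).2)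
    rw [d23, Submodule.mem_bot] at hzs
    apply hc
    have h4 : ∑ i, c i • z i = 0 := by
      apply Subtype.ext
      simpa using hzs
    have := Fintype.linearIndependent_iff.mp z.linearIndependent c h4
    ext i
    exact this i
  by_contra hodd
  rw [Nat.not_even_iff_odd] at hodd
  have h5 : G.det = -G.det := by
    calc G.det = G.transpose.det := (Matrix.det_transpose G).symm
      _ = (-G).det := by rw [hskew]
      _ = -G.det := by rw [Matrix.det_neg, Fintype.card_fin, hodd.neg_one_pow, neg_one_mul]
  have h6 : (2 : F) * G.det = 0 := by linear_combination h5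
  exact hdet ((mul_eq_zero.mp h6).resolve_left h2)

end QS

end SPR24
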