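import Mathlib
import Pool.Agent.SPR24.Inv2

/-! # Involutions preserving a spread of a hyperbolic quadric: the main argument -/

namespace SPR24

namespace QS

variable {F V : Type} [Field F] [AddCommGroup V] [Module F V] [FiniteDimensional F V]
  (X : QS F V)

/-- A spread by totally singular subspaces of dimension `m`, abstract version. -/
def Spr (m : ℕ) (S : Set (Submodule F V)) : Prop :=
  (∀ W ∈ S, (∀ v ∈ W, X.Q v = 0) ∧ Module.finrank F W = m) ∧
    ∀ v : V, v ≠ 0 → X.Q v = 0 → ∃! W, W ∈ S ∧ v ∈ W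

variable {m : ℕ} {S : Set (Submodule F V)}

theorem Spr.eq {X : QS F V} (hS : X.Spr m S) {W W' : Submodule F V} (hW : W ∈ S) (hW' : W' ∈ S)
    {v : V} (hv0 : v ≠ 0) (hv : v ∈ W) (hv' : v ∈ W') : W = W' := by
  obtain ⟨W0, -, h⟩ := hS.2 v hv0 ((hS.1 W hW).1 v hv)
  exact (h W ⟨hW, hv⟩).trans (h W' ⟨hW', hv'⟩).symm

theorem Spr.inf {X : QS F V} (hS : X.Spr m S) {W W' : Submodule F V} (hW : W ∈ S) (hW' : W' ∈ S)
    (hne : W ≠ W') : W ⊓ W' = ⊥ := by
  rw [Submodule.eq_bot_iff]
  intro v hv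
  by_contra hv0
  exact hne (hS.eq hW hW' hv0 hv.1 hv.2)

variable (t : V →ₗ[F] V)

omit [FiniteDimensional F V] in
theorem mem_plus {v : V} : v ∈ Module.End.eigenspace t (1 : F) ↔ t v = v := by
  rw [Module.End.mem_eigenspace_iff, one_smul]

omit [FiniteDimensional F V] in
theorem mem_minus {v : V} : v ∈ Module.End.eigenspace t (-1 : F) ↔ t v = -v := by
  rw [Module.End.mem_eigenspace_iff, neg_one_smul]

/-- A member of the spread with a nonzero fixed vector (up to sign) is mapped onto itself. -/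
theorem fixed_of_plus {X : QS F V} (hS : X.Spr m S) (ht : ∀ W ∈ S, W.map t ∈ S)
    {W : Submodule F V} (hW : W ∈ S) {v : V} (hv0 : v ≠ 0) (hv : v ∈ W) (htv : t v = v) :
    W.map t = W := by
  apply hS.eq (ht W hW) hW hv0 _ hv
  rw [← htv]
  exact Submodule.mem_map_of_mem hv

theorem fixed_of_minus {X : QS F V} (hS : X.Spr m S) (ht : ∀ W ∈ S, W.map t ∈ S)
    {W : Submodule F V} (hW : W ∈ S) {v : V} (hv0 : v ≠ 0) (hv : v ∈ W) (htv : t v = -v) :
    W.map t = W := by
  apply hS.eq (ht W hW) hW hv0 _ hv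
  have h1 : t (-v) = v := by rw [map_neg, htv, neg_neg]
  rw [← h1]
  exact Submodule.mem_map_of_mem (W.neg_mem hv)

/-- If every member is fixed then `t` is `1` or `-1`. -/
theorem all_fixed {X : QS F V} (h2 : (2 : F) ≠ 0) (hS : X.Spr m S) (hm : 0 < m)
    (hne : S.Nonempty) (ht2 : ∀ v, t (t v) = v) (htQ : ∀ v, X.Q (t v) = X.Q v)
    (hfix : ∀ W ∈ S, W.map t = W) : (∀ v, t v = v) ∨ (∀ v, t v = -v) := by
  have htW : ∀ W ∈ S, ∀ v ∈ W, t v ∈ W := by
    intro W hW v hv
    have : t v ∈ W.map t := Submodule.mem_map_of_mem hv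
    rwa [hfix W hW] at this
  have hall : ∀ v, X.Q v = 0 → X.B v (t v) = 0 := by
    intro v hv
    by_cases hv0 : v = 0
    · rw [hv0]; simp
    · obtain ⟨W, ⟨hW, hvW⟩, -⟩ := hS.2 v hv0 hv
      exact X.tot (hS.1 W hW).1 hvW (htW W hW v hvW)
  by_contra hcon
  push Not at hcon
  obtain ⟨⟨v1, hv1⟩, ⟨v2, hv2⟩⟩ := hcon
  -- nonzero vectors in the two eigenspaces
  obtain ⟨x1, y1, hx1, hy1, hxy1, -, -⟩ := decomp t ht2 h2 v1
  obtain ⟨x2, y2, hx2, hy2, hxy2, -, -⟩ := decomp t ht2 h2 v2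
  have hy1' : y1 ≠ 0 := by
    intro h; apply hv1; rw [hxy1, h, add_zero, hx1]
  have hx2' : x2 ≠ 0 := by
    intro h; apply hv2; rw [hxy2, h, zero_add, hy2]
  obtain ⟨W, hW⟩ := hne
  have hfr := (hS.1 W hW).2
  have hWne : W ≠ ⊥ := by
    intro h; rw [h, finrank_bot] at hfr; omega
  obtain ⟨w, hw, hw0⟩ := Submodule.exists_mem_ne_zero_of_ne_bot hWne
  obtain ⟨x, y, hx, hy, hxy, hxe, hye⟩ := decomp t ht2 h2 w
  have hxW : x ∈ W := by
    rw [hxe]; exact W.smul_mem _ (W.add_mem hw (htW W hW w hw))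
  have hyW : y ∈ W := by
    rw [hye]; exact W.smul_mem _ (W.sub_mem hw (htW W hW w hw))
  by_cases hx0 : x = 0
  · have hy0 : y ≠ 0 := by
      intro h; apply hw0; rw [hxy, hx0, h, add_zero]
    have hmQ : ∀ v, X.Q ((-t) v) = X.Q v := by
      intro v
      have h1 : (-t) v = (-1 : F) • (t v) := by rw [LinearMap.neg_apply, neg_one_smul]
      rw [h1, X.Qsmul h2, htQ]; ring
    have hm2 : ∀ v, (-t) ((-t) v) = v := by
      intro v
      rw [LinearMap.neg_apply, LinearMap.neg_apply, map_neg, neg_neg, ht2]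
    apply X.stepA (-t) h2 hm2 hmQ (x := y) (y := x2) _ (by rw [LinearMap.neg_apply, hy, neg_neg])
      hy0 ((hS.1 W hW).1 y hyW) (by rw [LinearMap.neg_apply, hx2]) hx2'
    intro v hv
    rw [LinearMap.neg_apply, map_neg, hall v hv, neg_zero]
  · exact X.stepA t h2 ht2 htQ hall hx hx0 ((hS.1 W hW).1 x hxW) hy1 hy1'

/-- The two eigenspaces are complementary. -/
theorem compl_eig (h2 : (2 : F) ≠ 0) (ht2 : ∀ v, t (t v) = v) :
    Module.finrank F (Module.End.eigenspace t (1 : F)) +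
      Module.finrank F (Module.End.eigenspace t (-1 : F)) = Module.finrank F V := by
  have hc : IsCompl (Module.End.eigenspace t (1 : F)) (Module.End.eigenspace t (-1 : F)) := by
    constructor
    · rw [Submodule.disjoint_def]
      intro v hv hv'
      rw [mem_plus] at hv
      rw [mem_minus, hv] at hv'
      have h3 : (2 : F) • v = 0 := by
        rw [two_smul]
        nth_rewrite 1 [hv']
        rw [neg_add_cancel]
      exact (smul_eq_zero.mp h3).resolve_left h2
    · rw [codisjoint_iff, Submodule.eq_top_iff']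
      intro v
      obtain ⟨x, y, hx, hy, hxy, -, -⟩ := decomp t ht2 h2 v
      rw [hxy]
      exact Submodule.add_mem_sup ((mem_plus t).mpr hx) ((mem_minus t).mpr hy)
  exact Submodule.finrank_add_eq_of_isCompl hc

/-- A fixed member is the sum of its intersections with the eigenspaces. -/
theorem fixed_split (h2 : (2 : F) ≠ 0) (ht2 : ∀ v, t (t v) = v) {W : Submodule F V}
    (hfix : W.map t = W) :
    Module.finrank F (W ⊓ Module.End.eigenspace t (1 : F) : Submodule F V) +
      Module.finrank F (W ⊓ Module.End.eigenspace t (-1 : F) : Submodule F V)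
        = Module.finrank F W := by
  set P := Module.End.eigenspace t (1 : F) with hP
  set N := Module.End.eigenspace t (-1 : F) with hN
  have htW : ∀ v ∈ W, t v ∈ W := by
    intro v hv
    have : t v ∈ W.map t := Submodule.mem_map_of_mem hv
    rwa [hfix] at this
  have hsup : (W ⊓ P) ⊔ (W ⊓ N) = W := by
    apply le_antisymm
    · exact sup_le inf_le_left inf_le_left
    · intro w hw
      obtain ⟨x, y, hx, hy, hxy, hxe, hye⟩ := decomp t ht2 h2 w
      rw [hxy]
      apply Submodule.add_mem_sup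
      · exact ⟨by rw [hxe]; exact W.smul_mem _ (W.add_mem hw (htW w hw)), (mem_plus t).mpr hx⟩
      · exact ⟨by rw [hye]; exact W.smul_mem _ (W.sub_mem hw (htW w hw)), (mem_minus t).mpr hy⟩
  have hinf : (W ⊓ P) ⊓ (W ⊓ N) = ⊥ := by
    rw [Submodule.eq_bot_iff]
    intro v hv
    have h1 : t v = v := (mem_plus t).mp hv.1.2
    have h3 : t v = -v := (mem_minus t).mp hv.2.2
    rw [h1] at h3
    have h4 : (2 : F) • v = 0 := by
      rw [two_smul]
      nth_rewrite 1 [h3]
      rw [neg_add_cancel]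
    exact (smul_eq_zero.mp h4).resolve_left h2
  have := Submodule.finrank_sup_add_finrank_inf_eq (W ⊓ P) (W ⊓ N)
  rw [hsup, hinf, finrank_bot] at this
  omega

/-- Two members meet an eigenspace (any subspace) in disjoint subspaces. -/
theorem add_le_of_ne {X : QS F V} (hS : X.Spr m S) {W W' : Submodule F V} (hW : W ∈ S)
    (hW' : W' ∈ S) (hne : W ≠ W') (U : Submodule F V) :
    Module.finrank F (W ⊓ U : Submodule F V) + Module.finrank F (W' ⊓ U : Submodule F V)
      ≤ Module.finrank F U := by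
  have hinf : (W ⊓ U) ⊓ (W' ⊓ U) = ⊥ := by
    rw [Submodule.eq_bot_iff]
    intro v hv
    have : v ∈ W ⊓ W' := ⟨hv.1.1, hv.2.1⟩
    rw [hS.inf hW hW' hne] at this
    exact this
  have h1 := Submodule.finrank_sup_add_finrank_inf_eq (W ⊓ U) (W' ⊓ U)
  rw [hinf, finrank_bot] at h1
  have h3 : Module.finrank F ((W ⊓ U) ⊔ (W' ⊓ U) : Submodule F V) ≤ Module.finrank F U :=
    Submodule.finrank_mono (sup_le inf_le_right inf_le_right)
  omega

end QS

end SPR24
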