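import Mathlib
import Pool.Agent.SPR24.Inv3

/-! # The fixed space of an isometry preserving a spread has at most half the dimension -/

namespace SPR24

namespace QS

variable {F V : Type} [Field F] [AddCommGroup V] [Module F V] [FiniteDimensional F V]

theorem perp_le (X : QS F V) {D E : Submodule F V} (h : ∀ d ∈ D, ∀ e ∈ E, X.B d e = 0) :
    Module.finrank F D + Module.finrank F E ≤ Module.finrank F V := by
  have hker : LinearMap.ker X.B = ⊥ := by
    rw [LinearMap.ker_eq_bot']
    intro v hv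
    exact X.nd v (fun w => by rw [hv]; rfl)
  have h1 := LinearMap.BilinForm.finrank_add_finrank_orthogonal' (B := X.B) D
  rw [hker, inf_bot_eq, finrank_bot, add_zero] at h1
  have h2 : Module.finrank F E ≤ Module.finrank F (LinearMap.BilinForm.orthogonal X.B D) := by
    apply Submodule.finrank_mono
    intro e he
    rw [LinearMap.BilinForm.mem_orthogonal_iff]
    intro d hd
    exact h d hd e he
  omega

variable {X : QS F V} {m : ℕ} {S : Set (Submodule F V)} (g : V →ₗ[F] V)

/-- **Half-dimension bound.** -/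
theorem fix_le (h2 : (2 : F) ≠ 0) (hS : X.Spr m S) (hne : S.Nonempty)
    (hfr : Module.finrank F V = 2 * m) (hgQ : ∀ v, X.Q (g v) = X.Q v)
    (hgS : ∀ W ∈ S, W.map g ∈ S) (hg : ¬ ∀ v, g v = v) :
    Module.finrank F (Module.End.eigenspace g (1 : F)) ≤ m := by
  by_contra hcon
  push Not at hcon
  set C := Module.End.eigenspace g (1 : F) with hC
  have hgB := X.tB g hgQ
  -- every member is fixed
  have hfix : ∀ W ∈ S, W.map g = W := by
    intro W hW
    have hWU : W ⊓ C ≠ ⊥ := by
      intro hbot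
      have h4 := Submodule.finrank_sup_add_finrank_inf_eq W C
      rw [hbot, finrank_bot, (hS.1 W hW).2] at h4
      have h5 := Submodule.finrank_le (W ⊔ C)
      omega
    obtain ⟨v, hv, hv0⟩ := Submodule.exists_mem_ne_zero_of_ne_bot hWU
    exact fixed_of_plus g hS hgS hW hv0 hv.1 ((mem_plus g).mp hv.2)
  have hgW : ∀ W ∈ S, ∀ v ∈ W, g v ∈ W := by
    intro W hW v hv
    have : g v ∈ W.map g := Submodule.mem_map_of_mem hv
    rwa [hfix W hW] at this
  -- a singular vector of `C` outside its radical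
  obtain ⟨W1, hW1⟩ := hne
  obtain ⟨c0, hc0W, hc0C, c1, hc1C, hc01⟩ : ∃ c0 ∈ W1, c0 ∈ C ∧ ∃ c1 ∈ C, X.B c0 c1 ≠ 0 := by
    by_contra hno
    push Not at hno
    have hperp : ∀ d ∈ W1 ⊓ C, ∀ e ∈ W1 ⊔ C, X.B d e = 0 := by
      intro d hd e he
      obtain ⟨a, ha, b, hb, rfl⟩ := Submodule.mem_sup.mp he
      rw [map_add, X.tot (hS.1 W1 hW1).1 hd.1 ha, hno d hd.1 hd.2 b hb, add_zero]
    have h4 := X.perp_le hperp
    have h5 := Submodule.finrank_sup_add_finrank_inf_eq W1 C
    rw [(hS.1 W1 hW1).2] at h5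
    omega
  have hQc0 : X.Q c0 = 0 := (hS.1 W1 hW1).1 c0 hc0W
  have hgc0 : g c0 = c0 := (mem_plus g).mp hc0C
  -- solving for singular vectors
  have hsolve : ∀ v, X.B v c0 ≠ 0 → X.Q (v + (-(X.Q v / X.B v c0)) • c0) = 0 := by
    intro v hv
    rw [X.add, X.Qsmul h2, hQc0, map_smul, smul_eq_mul]
    field_simp
    ring
  have hshift : ∀ v, ∃ c ∈ C, X.B (v + c) c0 ≠ 0 := by
    intro v
    by_cases hv : X.B v c0 = 0
    · refine ⟨c1, hc1C, ?_⟩
      rw [map_add, LinearMap.add_apply, hv, zero_add, X.symm]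
      exact hc01
    · exact ⟨0, C.zero_mem, by rwa [add_zero]⟩
  have hsing : ∀ v, ∃ c ∈ C, X.Q (v + c) = 0 := by
    intro v
    obtain ⟨c, hc, hB⟩ := hshift v
    refine ⟨c + (-(X.Q (v + c) / X.B (v + c) c0)) • c0,
      C.add_mem hc (C.smul_mem _ hc0C), ?_⟩
    rw [← add_assoc]
    exact hsolve _ hB
  -- `B v (g v) = B v v`
  have hdiag : ∀ v, X.B v (g v) = X.B v v := by
    intro v
    obtain ⟨c, hc, hQ⟩ := hsing v
    have hgc : g c = c := (mem_plus g).mp hc
    have h4 : X.B (v + c) (g (v + c)) = 0 := by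
      by_cases h0 : v + c = 0
      · rw [h0]; simp
      · obtain ⟨W, ⟨hW, hvW⟩, -⟩ := hS.2 _ h0 hQ
        exact X.tot (hS.1 W hW).1 hvW (hgW W hW _ hvW)
    have h5 : X.B (v + c) (v + c) = 0 := by rw [X.diag, hQ, mul_zero]
    have h6 : X.B c (g v) = X.B c v := by
      have := hgB c v
      rwa [hgc] at this
    rw [map_add g, hgc] at h4
    simp only [map_add, LinearMap.add_apply] at h4 h5
    rw [h6] at h4
    linear_combination h4 - h5
  have hpol : ∀ v w, X.B v (g w) + X.B w (g v) = 2 * X.B v w := by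
    intro v w
    have h4 := hdiag (v + w)
    rw [map_add g] at h4
    simp only [map_add, LinearMap.add_apply] at h4
    rw [hdiag v, hdiag w, X.symm w v] at h4
    linear_combination h4
  have hiso : ∀ v w, X.B (g v - v) (g w - w) = 0 := by
    intro v w
    have h4 := hpol v w
    have h5 := hgB v w
    simp only [map_sub, LinearMap.sub_apply]
    rw [h5, X.symm (g v) w]
    linear_combination -h4
  have hsq : ∀ v, g (g v - v) = g v - v := by
    intro v
    have h0 : g (g v - v) - (g v - v) = 0 := by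
      apply X.nd
      intro w
      rw [X.symm, map_sub]
      have h4 := hpol w (g v - v)
      have h5 := hiso v w
      rw [map_sub (X.B (g v - v))] at h5
      rw [X.symm w (g v - v)] at h4 ⊢
      linear_combination h4 - h5
    exact sub_eq_zero.mp h0
  push Not at hg
  obtain ⟨v, hv⟩ := hg
  set u := g v - v with hu
  have hu0 : u ≠ 0 := sub_ne_zero.mpr hv
  have hQu : X.Q u = 0 := by
    have h4 := X.diag u
    rw [hiso v v] at h4
    exact (mul_eq_zero.mp h4.symm).resolve_left h2
  obtain ⟨W0, ⟨hW0, huW0⟩, -⟩ := hS.2 u hu0 hQu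
  have hvC : v ∉ C := fun h => hv ((mem_plus g).mp h)
  have hmem : ∀ c ∈ C, X.Q (v + c) = 0 → v + c ∈ W0 := by
    intro c hc hQ
    have hgc : g c = c := (mem_plus g).mp hc
    have hne0 : v + c ≠ 0 := by
      intro h
      apply hvC
      rw [← neg_eq_iff_add_eq_zero] at h
      have : v = -c := by rw [← h, neg_neg]
      rw [this]
      exact C.neg_mem hc
    obtain ⟨W, ⟨hW, hvW⟩, -⟩ := hS.2 _ hne0 hQ
    have h4 : u ∈ W := by
      have h5 : u = g (v + c) - (v + c) := by rw [map_add, hgc, hu]; abel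
      rw [h5]
      exact W.sub_mem (hgW W hW _ hvW) hvW
    have h6 : W = W0 := hS.eq hW hW0 hu0 h4 huW0
    rw [← h6]; exact hvW
  obtain ⟨cc, hcc, hs⟩ := hshift v
  have hgen : ∀ a ∈ C, X.B (v + cc) c0 + X.B a c0 ≠ 0 → a ∈ W0 ⊔ Submodule.span F {c0} := by
    intro a ha hB
    have h4 := hmem (cc + (-(X.Q (v + cc) / X.B (v + cc) c0)) • c0)
      (C.add_mem hcc (C.smul_mem _ hc0C)) (by rw [← add_assoc]; exact hsolve _ hs)
    have hB' : X.B (v + (cc + a)) c0 ≠ 0 := by
      rw [← add_assoc, map_add X.B (v + cc) a, LinearMap.add_apply]; exact hB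
    have h5 := hmem ((cc + a) + (-(X.Q (v + (cc + a)) / X.B (v + (cc + a)) c0)) • c0)
      (C.add_mem (C.add_mem hcc ha) (C.smul_mem _ hc0C))
      (by rw [← add_assoc]; exact hsolve _ hB')
    have h6 := W0.sub_mem h5 h4
    have h7 : a = ((v + ((cc + a) + (-(X.Q (v + (cc + a)) / X.B (v + (cc + a)) c0)) • c0)) -
        (v + (cc + (-(X.Q (v + cc) / X.B (v + cc) c0)) • c0))) +
        ((X.Q (v + (cc + a)) / X.B (v + (cc + a)) c0) - (X.Q (v + cc) / X.B (v + cc) c0)) • c0 := by
      rw [sub_smul, neg_smul, neg_smul]; abel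
    rw [h7]
    exact Submodule.add_mem_sup h6 (Submodule.smul_mem _ _ (Submodule.mem_span_singleton_self c0))
  have hCT : C ≤ W0 ⊔ Submodule.span F {c0} := by
    intro a ha
    by_cases hB : X.B (v + cc) c0 + X.B a c0 = 0
    · have h4 : (2⁻¹ : F) • a ∈ W0 ⊔ Submodule.span F {c0} := by
        apply hgen _ (C.smul_mem _ ha)
        rw [map_smul, LinearMap.smul_apply, smul_eq_mul]
        intro h5
        apply hs
        have h6 := mul_inv_cancel₀ h2
        have h7 : X.B (v + cc) c0 = 2 * (X.B (v + cc) c0 + 2⁻¹ * X.B a c0) -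
            (X.B (v + cc) c0 + X.B a c0) := by
          linear_combination (-(X.B a c0)) * h6
        rw [h7, h5, hB]; ring
      have h5 : a = (2 : F) • ((2⁻¹ : F) • a) := by
        rw [smul_smul, mul_inv_cancel₀ h2, one_smul]
      rw [h5]
      exact Submodule.smul_mem _ _ h4
    · exact hgen a ha hB
  have hfT : Module.finrank F (W0 ⊔ Submodule.span F {c0} : Submodule F V) ≤ m + 1 := by
    have h4 := Submodule.finrank_sup_add_finrank_inf_eq W0 (Submodule.span F {c0})
    have h5 : Module.finrank F (Submodule.span F {c0}) ≤ 1 := by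
      have := finrank_span_le_card (R := F) ({c0} : Set V)
      simpa using this
    rw [(hS.1 W0 hW0).2] at h4
    omega
  have hEq : C = W0 ⊔ Submodule.span F {c0} :=
    Submodule.eq_of_le_of_finrank_le hCT (by omega)
  have hW0C : W0 ≤ C := by rw [hEq]; exact le_sup_left
  have h8 := hW0C (hmem (cc + (-(X.Q (v + cc) / X.B (v + cc) c0)) • c0)
      (C.add_mem hcc (C.smul_mem _ hc0C)) (by rw [← add_assoc]; exact hsolve _ hs))
  apply hvC
  have h9 := C.sub_mem h8 (C.add_mem hcc (C.smul_mem (-(X.Q (v + cc) / X.B (v + cc) c0)) hc0C))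
  rwa [add_sub_cancel_right] at h9

end QS

end SPR24
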