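import Mathlib
import Pool.Agent.SPR24.Spread
import Pool.Agent.SPR24.Inv

/-! # The hyperbolic form as a quadratic space -/

namespace SPR24

/-- The hyperbolic quadratic form `qf` with its polar form. -/
def hyp (F : Type) [Field F] (m : ℕ) : QS F ((Fin m → F) × (Fin m → F)) where
  Q := qf
  B := LinearMap.mk₂ F (fun v w => ∑ i, (v.1 i * w.2 i + w.1 i * v.2 i))
    (by
      intro a b c
      rw [← Finset.sum_add_distrib]
      apply Finset.sum_congr rfl
      intro i _
      simp only [Prod.fst_add, Prod.snd_add, Pi.add_apply]
      ring)
    (by
      intro r a b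
      rw [smul_eq_mul, Finset.mul_sum]
      apply Finset.sum_congr rfl
      intro i _
      simp only [Prod.smul_fst, Prod.smul_snd, Pi.smul_apply, smul_eq_mul]
      ring)
    (by
      intro a b c
      rw [← Finset.sum_add_distrib]
      apply Finset.sum_congr rfl
      intro i _
      simp only [Prod.fst_add, Prod.snd_add, Pi.add_apply]
      ring)
    (by
      intro r a b
      rw [smul_eq_mul, Finset.mul_sum]
      apply Finset.sum_congr rfl
      intro i _
      simp only [Prod.smul_fst, Prod.smul_snd, Pi.smul_apply, smul_eq_mul]
      ring)
  add := by
    intro v w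
    simp only [LinearMap.mk₂_apply, qf]
    rw [← Finset.sum_add_distrib, ← Finset.sum_add_distrib]
    apply Finset.sum_congr rfl
    intro i _
    simp only [Prod.fst_add, Prod.snd_add, Pi.add_apply]
    ring
  diag := by
    intro v
    simp only [LinearMap.mk₂_apply, qf]
    rw [Finset.mul_sum]
    apply Finset.sum_congr rfl
    intro i _
    ring
  nd := by
    intro v h
    apply Prod.ext
    · funext i
      have := h (0, Pi.single i 1)
      simpa [LinearMap.mk₂_apply, Pi.single_apply] using this
    · funext i
      have := h (Pi.single i 1, 0)
      simpa [LinearMap.mk₂_apply, Pi.single_apply] using this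

end SPR24
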