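import Mathlib
import Pool.Agent.SPR24.Inv3

/-! # Isometries preserving a spread whose fixed space is nondegenerate -/

namespace SPR24

namespace QS

variable {F V : Type} [Field F] [AddCommGroup V] [Module F V] [FiniteDimensional F V]
  {X : QS F V} {m : ℕ} {S : Set (Submodule F V)} (g : V →ₗ[F] V)

/-- For a fixed member `W`, `W` is the direct sum of its parts in the kernel and in the range of
`g - 1`. -/
theorem split_semi (hKI : LinearMap.ker (g - LinearMap.id) ⊓ LinearMap.range (g - LinearMap.id) = ⊥)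
    {W : Submodule F V} (hfix : W.map g = W) :
    Module.finrank F (W ⊓ LinearMap.ker (g - LinearMap.id) : Submodule F V) +
      Module.finrank F (W ⊓ LinearMap.range (g - LinearMap.id) : Submodule F V)
        = Module.finrank F W := by
  set K := LinearMap.ker (g - LinearMap.id) with hK
  set I := LinearMap.range (g - LinearMap.id) with hI
  have hgW : ∀ v ∈ W, g v ∈ W := by
    intro v hv
    have : g v ∈ W.map g := Submodule.mem_map_of_mem hv
    rwa [hfix] at this
  have hinf : (W ⊓ K) ⊓ (W ⊓ I) = ⊥ := by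
    rw [Submodule.eq_bot_iff]
    intro v hv
    have : v ∈ K ⊓ I := ⟨hv.1.2, hv.2.2⟩
    rw [hKI] at this
    exact this
  have h1 := Submodule.finrank_sup_add_finrank_inf_eq (W ⊓ K) (W ⊓ I)
  rw [hinf, finrank_bot, add_zero] at h1
  have h3 : Module.finrank F ((W ⊓ K) ⊔ (W ⊓ I) : Submodule F V) ≤ Module.finrank F W :=
    Submodule.finrank_mono (sup_le inf_le_left inf_le_left)
  -- rank-nullity on `W`
  let f : W →ₗ[F] V := (g - LinearMap.id).comp W.subtype
  have h4 := LinearMap.finrank_range_add_finrank_ker f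
  have h5 : Module.finrank F (LinearMap.range f) ≤ Module.finrank F (W ⊓ I : Submodule F V) := by
    apply Submodule.finrank_mono
    rintro _ ⟨w, rfl⟩
    exact ⟨W.sub_mem (hgW w w.2) w.2, ⟨(w : V), rfl⟩⟩
  have h6 : Module.finrank F (LinearMap.ker f) ≤ Module.finrank F (W ⊓ K : Submodule F V) := by
    rw [← Submodule.finrank_map_subtype_eq W (LinearMap.ker f)]
    apply Submodule.finrank_mono
    rintro _ ⟨w, hw, rfl⟩
    exact ⟨w.2, hw⟩
  omega

/-- **Main theorem for nondegenerate fixed spaces, abstract form.** -/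
theorem main_semi [Fintype F] (h2 : (2 : F) ≠ 0) (hS : X.Spr m S)
    (hfr : Module.finrank F V = 2 * m)
    (hgQ : ∀ v, X.Q (g v) = X.Q v) (hgS : ∀ W ∈ S, W.map g ∈ S)
    (hKI : LinearMap.ker (g - LinearMap.id) ⊓ LinearMap.range (g - LinearMap.id) = ⊥)
    (h3 : 3 ≤ Module.finrank F (LinearMap.ker (g - LinearMap.id))) :
    4 ∣ Module.finrank F (LinearMap.ker (g - LinearMap.id)) ∧
      (∃ W ∈ S, W.map g = W) ∧
      ∀ W ∈ S, W.map g = W →
        2 * Module.finrank F (W ⊓ LinearMap.ker (g - LinearMap.id) : Submodule F V) =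
          Module.finrank F (LinearMap.ker (g - LinearMap.id)) := by
  set P := LinearMap.ker (g - LinearMap.id) with hPdef
  set N := LinearMap.range (g - LinearMap.id) with hNdef
  have hmem : ∀ v, v ∈ P ↔ g v = v := by
    intro v
    rw [hPdef, LinearMap.mem_ker, LinearMap.sub_apply, LinearMap.id_apply, sub_eq_zero]
  have hPN : Module.finrank F P + Module.finrank F N = 2 * m := by
    have := LinearMap.finrank_range_add_finrank_ker (g - LinearMap.id)
    rw [hfr] at this
    rw [← this, add_comm]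
  have hsup : P ⊔ N = ⊤ := by
    apply Submodule.eq_top_of_finrank_eq
    have := Submodule.finrank_sup_add_finrank_inf_eq P N
    rw [hKI, finrank_bot] at this
    omega
  have hgB := X.tB g hgQ
  have hPNorth : ∀ x ∈ P, ∀ y ∈ N, X.B x y = 0 := by
    rintro x hx _ ⟨v, rfl⟩
    rw [LinearMap.sub_apply, LinearMap.id_apply, map_sub]
    have h4 := hgB x v
    rw [(hmem x).mp hx] at h4
    rw [h4, sub_self]
  have hnd : ∀ x, g x = x → (∀ w, g w = w → X.B x w = 0) → x = 0 := by
    intro x hx h
    apply X.nd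
    intro w
    have hw : w ∈ P ⊔ N := by rw [hsup]; trivial
    obtain ⟨a, ha, b, hb, rfl⟩ := Submodule.mem_sup.mp hw
    rw [map_add, h a ((hmem a).mp ha), hPNorth x ((hmem x).mpr hx) b hb, add_zero]
  -- first singular vector of `P`
  obtain ⟨u, huP, hu0, hQu⟩ := X.exists_singular h2 P (by omega)
  have htu : g u = u := (hmem u).mp huP
  have hex : ∃ w, g w = w ∧ X.B u w ≠ 0 := by
    by_contra hcon
    push Not at hcon
    exact hu0 (hnd u htu hcon)
  obtain ⟨w0, hw0, hBw0⟩ := hex
  obtain ⟨w1, hw1, hBw1⟩ : ∃ w, g w = w ∧ X.B u w = 1 := by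
    refine ⟨(X.B u w0)⁻¹ • w0, by rw [map_smul, hw0], ?_⟩
    rw [map_smul, smul_eq_mul, inv_mul_cancel₀ hBw0]
  have hBuu : X.B u u = 0 := by rw [X.diag, hQu, mul_zero]
  obtain ⟨u', htu', hBuu', hQu'⟩ : ∃ w, g w = w ∧ X.B u w = 1 ∧ X.Q w = 0 := by
    refine ⟨w1 + (-X.Q w1) • u, by rw [map_add, map_smul, hw1, htu], ?_, ?_⟩
    · rw [map_add, map_smul, hBw1, hBuu, smul_zero, add_zero]
    · rw [X.add, X.Qsmul h2, hQu, map_smul, X.symm w1 u, hBw1, smul_eq_mul]
      ring
  have hu'0 : u' ≠ 0 := by
    intro h; rw [h, map_zero] at hBuu'; exact zero_ne_one hBuu'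
  have hBu'u' : X.B u' u' = 0 := by rw [X.diag, hQu', mul_zero]
  obtain ⟨x, hx, hxu, hxu', hQx⟩ : ∃ x, g x = x ∧ X.B x u = 0 ∧ X.B x u' = 0 ∧ X.Q x ≠ 0 := by
    by_contra hcon
    push Not at hcon
    have hspan : P ≤ Submodule.span F ({u, u'} : Set V) := by
      intro w hw
      have htw : g w = w := (hmem w).mp hw
      have hproj : ∀ v, g v = v → g (v + (-X.B v u') • u + (-X.B v u) • u') =
            v + (-X.B v u') • u + (-X.B v u) • u' ∧
          X.B (v + (-X.B v u') • u + (-X.B v u) • u') u = 0 ∧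
          X.B (v + (-X.B v u') • u + (-X.B v u) • u') u' = 0 := by
        intro v hv
        refine ⟨?_, ?_, ?_⟩
        · simp only [map_add, map_smul, hv, htu, htu']
        · simp only [map_add, map_smul, LinearMap.add_apply, LinearMap.smul_apply, hBuu,
            X.symm u' u, hBuu', smul_eq_mul]
          ring
        · simp only [map_add, map_smul, LinearMap.add_apply, LinearMap.smul_apply, hBu'u',
            hBuu', smul_eq_mul]
          ring
      obtain ⟨hz1, hz2, hz3⟩ := hproj w htw
      set z := w + (-X.B w u') • u + (-X.B w u) • u' with hz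
      have hz0 : z = 0 := by
        apply hnd z hz1
        intro v hv
        obtain ⟨hy1, hy2, hy3⟩ := hproj v hv
        set y := v + (-X.B v u') • u + (-X.B v u) • u' with hy
        have hBzy : X.B z y = 0 := by
          have h4 := X.add z y
          rw [hcon z hz1 hz2 hz3, hcon y hy1 hy2 hy3,
            hcon (z + y) (by rw [map_add, hz1, hy1])
              (by rw [map_add, LinearMap.add_apply, hz2, hy2, add_zero])
              (by rw [map_add, LinearMap.add_apply, hz3, hy3, add_zero])] at h4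
          linear_combination -h4
        have hv' : v = y + X.B v u' • u + X.B v u • u' := by
          rw [hy, neg_smul, neg_smul]; abel
        rw [hv', map_add, map_add, map_smul, map_smul, hBzy, hz2, hz3, smul_zero, smul_zero,
          add_zero, add_zero]
      have hw' : w = X.B w u' • u + X.B w u • u' := by
        have h5 : w = z + X.B w u' • u + X.B w u • u' := by
          rw [hz, neg_smul, neg_smul]; abel
        rw [hz0, zero_add] at h5
        exact h5
      rw [hw']
      apply Submodule.add_mem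
      · exact Submodule.smul_mem _ _ (Submodule.subset_span (by simp))
      · exact Submodule.smul_mem _ _ (Submodule.subset_span (by simp))
    have h6 := Submodule.finrank_mono hspan
    have h7 : Module.finrank F (Submodule.span F ({u, u'} : Set V)) ≤ 2 := by
      classical
      have := finrank_span_finset_le_card (R := F) ({u, u'} : Finset V)
      rw [Finset.coe_insert, Finset.coe_singleton] at this
      exact this.trans Finset.card_le_two
    omega
  have hBxu : X.B u x = 0 := by rw [X.symm]; exact hxu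
  have hBxu' : X.B u' x = 0 := by rw [X.symm]; exact hxu'
  obtain ⟨v, htv, hQv, hBvu', hBvu⟩ : ∃ v, g v = v ∧ X.Q v = 0 ∧ X.B v u' ≠ 0 ∧ X.B v u ≠ 0 := by
    refine ⟨u + (-X.Q x) • u' + x, by simp only [map_add, map_smul, htu, htu', hx], ?_, ?_, ?_⟩
    · rw [X.add, X.add, X.Qsmul h2, hQu, hQu']
      simp only [map_add, map_smul, LinearMap.add_apply, LinearMap.smul_apply, hBuu', hBxu,
        hBxu', smul_eq_mul]
      ring
    · simp only [map_add, map_smul, LinearMap.add_apply, LinearMap.smul_apply, hBuu', hBu'u',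
        hxu', smul_eq_mul]
      simp
    · simp only [map_add, map_smul, LinearMap.add_apply, LinearMap.smul_apply, hBuu,
        X.symm u' u, hBuu', hxu, smul_eq_mul]
      simpa using hQx
  have hv0 : v ≠ 0 := by
    intro h; rw [h, map_zero, LinearMap.zero_apply] at hBvu; exact hBvu rfl
  obtain ⟨W1, ⟨hW1, huW1⟩, -⟩ := hS.2 u hu0 hQu
  obtain ⟨W2, ⟨hW2, huW2⟩, -⟩ := hS.2 u' hu'0 hQu'
  obtain ⟨W3, ⟨hW3, huW3⟩, -⟩ := hS.2 v hv0 hQv
  have hf1 := fixed_of_plus g hS hgS hW1 hu0 huW1 htu
  have hf2 := fixed_of_plus g hS hgS hW2 hu'0 huW2 htu'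
  have hf3 := fixed_of_plus g hS hgS hW3 hv0 huW3 htv
  have h12 : W1 ≠ W2 := by
    intro h
    rw [← h] at huW2
    have := X.tot (hS.1 W1 hW1).1 huW1 huW2
    rw [hBuu'] at this
    exact one_ne_zero this
  have h13 : W1 ≠ W3 := by
    intro h
    rw [← h] at huW3
    exact hBvu (X.tot (hS.1 W1 hW1).1 huW3 huW1)
  have h23 : W2 ≠ W3 := by
    intro h
    rw [← h] at huW3
    exact hBvu' (X.tot (hS.1 W2 hW2).1 huW3 huW2)
  have hs1 : Module.finrank F (W1 ⊓ P : Submodule F V) +
      Module.finrank F (W1 ⊓ N : Submodule F V) = Module.finrank F W1 := split_semi g hKI hf1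
  have hs2 : Module.finrank F (W2 ⊓ P : Submodule F V) +
      Module.finrank F (W2 ⊓ N : Submodule F V) = Module.finrank F W2 := split_semi g hKI hf2
  have hs3 : Module.finrank F (W3 ⊓ P : Submodule F V) +
      Module.finrank F (W3 ⊓ N : Submodule F V) = Module.finrank F W3 := split_semi g hKI hf3
  rw [(hS.1 W1 hW1).2] at hs1
  rw [(hS.1 W2 hW2).2] at hs2
  rw [(hS.1 W3 hW3).2] at hs3
  have a12 := add_le_of_ne hS hW1 hW2 h12 P
  have a13 := add_le_of_ne hS hW1 hW3 h13 P
  have a23 := add_le_of_ne hS hW2 hW3 h23 P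
  have b12 := add_le_of_ne hS hW1 hW2 h12 N
  have b13 := add_le_of_ne hS hW1 hW3 h13 N
  have b23 := add_le_of_ne hS hW2 hW3 h23 N
  set a := Module.finrank F (W1 ⊓ P : Submodule F V) with ha
  have e2 : Module.finrank F (W2 ⊓ P : Submodule F V) = a := by omega
  have e3 : Module.finrank F (W3 ⊓ P : Submodule F V) = a := by omega
  have eP : Module.finrank F P = 2 * a := by omega
  refine ⟨?_, ⟨W1, hW1, hf1⟩, ?_⟩
  · have hd : ∀ {A B : Submodule F V}, A ∈ S → B ∈ S → A ≠ B → (A ⊓ P) ⊓ (B ⊓ P) = ⊥ := by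
      intro A B hA hB hAB
      rw [Submodule.eq_bot_iff]
      intro z hz
      have : z ∈ A ⊓ B := ⟨hz.1.1, hz.2.1⟩
      rw [hS.inf hA hB hAB] at this
      exact this
    have hev : Even a := by
      apply X.even_of_three h2 (U := P) (A1 := W1 ⊓ P) (A2 := W2 ⊓ P) (A3 := W3 ⊓ P)
        inf_le_right inf_le_right inf_le_right
        (fun z hz => (hS.1 W1 hW1).1 z hz.1) (fun z hz => (hS.1 W2 hW2).1 z hz.1)
        (fun z hz => (hS.1 W3 hW3).1 z hz.1) (hd hW1 hW2 h12) (hd hW1 hW3 h13) (hd hW2 hW3 h23)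
        ha.symm e2 e3 eP
      intro z hz hzw
      apply hnd z ((hmem z).mp hz)
      intro w hw
      exact hzw w ((hmem w).mpr hw)
    obtain ⟨b, hb⟩ := hev
    rw [eP, hb]
    exact ⟨b, by ring⟩
  · intro W hW hfix
    have hs : Module.finrank F (W ⊓ P : Submodule F V) +
        Module.finrank F (W ⊓ N : Submodule F V) = Module.finrank F W := split_semi g hKI hfix
    rw [(hS.1 W hW).2] at hs
    by_cases hW1' : W = W1
    · rw [hW1', ← ha, eP]
    · have c1 := add_le_of_ne hS hW hW1 hW1' P
      have c2 := add_le_of_ne hS hW hW1 hW1' N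
      omega

end QS

end SPR24
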