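import Mathlib
import Pool.Agent.SPR24.Defs

/-! # The order of `q` modulo `r` -/

namespace SPR24

/-- The multiplicative order of `|F|` modulo `r`. -/
noncomputable def ordMod (F : Type) [Fintype F] (r : ℕ) : ℕ :=
  orderOf ((Fintype.card F : ℕ) : ZMod r)

end SPR24
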