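import Mathlib
import Pool.Agent.SPR24.Semi
import Pool.Agent.SPR24.Fix

/-! # Isometries of prime order preserving a spread -/

namespace SPR24

/-- A map of prime period with exactly one fixed point. -/
theorem card_cast_eq_one {α : Type} [Fintype α] {r : ℕ} [hr : Fact r.Prime] (f : α → α)
    (hf : ∀ a, f^[r] a = a) (a0 : α) (h0 : f a0 = a0) (huniq : ∀ a, f a = a → a = a0) :
    ((Fintype.card α : ℕ) : ZMod r) = 1 := by
  classical
  let φ : Function.End α := f
  have hφ : φ ^ r ^ 1 = 1 := by
    rw [pow_one]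
    have h1 := hom_coe_pow (fun g : Function.End α => (g : α → α)) rfl (fun g h => rfl) φ r
    funext a
    have h2 := congrFun h1 a
    exact h2.trans (hf a)
  have h1 := Equiv.Perm.card_fixedPoints_modEq (p := r) (n := 1) hφ
  have h2 : Fintype.card (Function.fixedPoints φ) = 1 := by
    rw [Fintype.card_eq_one_iff]
    exact ⟨⟨a0, h0⟩, fun y => Subtype.ext (huniq _ y.2)⟩
  rw [h2] at h1
  have h3 := (ZMod.natCast_eq_natCast_iff _ _ _).mpr h1
  rw [h3, Nat.cast_one]

namespace QS

variable {F V : Type} [Field F] [AddCommGroup V] [Module F V] [FiniteDimensional F V]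
  {m r : ℕ} {S : Set (Submodule F V)} (g : V →ₗ[F] V)

omit [FiniteDimensional F V] in
theorem semi_of_prime (hr0 : (r : F) ≠ 0) (hgr : g ^ r = 1) :
    LinearMap.ker (g - LinearMap.id) ⊓ LinearMap.range (g - LinearMap.id) = ⊥ := by
  rw [Submodule.eq_bot_iff]
  rintro v ⟨hv, w, hw⟩
  have hv' : g v = v := by
    rw [SetLike.mem_coe, LinearMap.mem_ker, LinearMap.sub_apply, LinearMap.id_apply,
      sub_eq_zero] at hv
    exact hv
  have hw' : g w = w + v := by
    rw [LinearMap.sub_apply, LinearMap.id_apply] at hw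
    rw [← hw]; abel
  have hk : ∀ k : ℕ, (g ^ k) w = w + k • v := by
    intro k
    induction k with
    | zero => rw [pow_zero, zero_smul, add_zero]; rfl
    | succ k ih =>
      rw [pow_succ', Module.End.mul_apply, ih, map_add, hw', map_nsmul, hv', add_smul, one_smul]
      abel
  have h1 := hk r
  rw [hgr] at h1
  have h2 : r • v = 0 := by
    have h3 : w + r • v = w + 0 := by rw [add_zero]; exact h1.symm
    exact add_left_cancel h3
  rw [← Nat.cast_smul_eq_nsmul F] at h2
  exact (smul_eq_zero.mp h2).resolve_left hr0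

/-- An invariant subspace without nonzero fixed vector. -/
theorem pow_eq_one_of_free [Fintype F] [hr : Fact r.Prime] (hgr : g ^ r = 1)
    (U : Submodule F V) (hU : ∀ v ∈ U, g v ∈ U) (hfree : ∀ v ∈ U, g v = v → v = 0) :
    ((Fintype.card F : ℕ) : ZMod r) ^ (Module.finrank F U) = 1 := by
  classical
  have hfin : Finite V := Module.finite_of_finite F
  have hfU : Fintype U := Fintype.ofFinite U
  let f : U → U := fun v => ⟨g v, hU v v.2⟩
  have hit : ∀ (k : ℕ) (v : U), ((f^[k] v : U) : V) = (g ^ k) (v : V) := by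
    intro k
    induction k with
    | zero => intro v; rfl
    | succ k ih =>
      intro v
      rw [Function.iterate_succ_apply, ih, pow_succ, Module.End.mul_apply]
  have h1 := card_cast_eq_one (r := r) f
    (fun a => Subtype.ext (by rw [hit, hgr]; rfl)) 0
    (Subtype.ext (by change g 0 = 0; exact map_zero g))
    (fun a ha => Subtype.ext (hfree a a.2 (congrArg Subtype.val ha)))
  rw [Module.card_eq_pow_finrank (K := F) (V := U), Nat.cast_pow] at h1
  exact h1

/-- **Main theorem for isometries of prime order, abstract form.** -/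
theorem main_prime {X : QS F V} [Fintype F] [hr : Fact r.Prime] (h2 : (2 : F) ≠ 0)
    (hr0 : (r : F) ≠ 0) (hS : X.Spr m S) (hne : S.Nonempty) (hfr : Module.finrank F V = 2 * m)
    (hgQ : ∀ v, X.Q (g v) = X.Q v) (hgS : ∀ W ∈ S, W.map g ∈ S)
    (hgr : g ^ r = 1) (hg : ¬ ∀ v, g v = v) :
    let c := Module.finrank F (LinearMap.ker (g - LinearMap.id))
    let j := orderOf ((Fintype.card F : ℕ) : ZMod r)
    j ∣ 2 * m - c ∧ (3 ≤ c → 4 ∣ c ∧ c ≤ m ∧ 2 * j ∣ 2 * m - c) ∧ (m < j → 2 * m - 2 ≤ j) := by
  intro c j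
  have hKI := semi_of_prime g hr0 hgr
  have hc : c + Module.finrank F (LinearMap.range (g - LinearMap.id)) = 2 * m := by
    have := LinearMap.finrank_range_add_finrank_ker (g - LinearMap.id)
    rw [hfr] at this
    rw [← this, add_comm]
  have hgg : ∀ v, g (g v - v) = g (g v) - g v := fun v => map_sub g _ _
  have hinvI : ∀ v ∈ LinearMap.range (g - LinearMap.id),
      g v ∈ LinearMap.range (g - LinearMap.id) := by
    rintro _ ⟨w, rfl⟩
    refine ⟨g w, ?_⟩
    rw [LinearMap.sub_apply, LinearMap.id_apply, LinearMap.sub_apply, LinearMap.id_apply, map_sub]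
  have hfreeI : ∀ v ∈ LinearMap.range (g - LinearMap.id), g v = v → v = 0 := by
    intro v hv hgv
    have h1 : v ∈ LinearMap.ker (g - LinearMap.id) ⊓ LinearMap.range (g - LinearMap.id) :=
      ⟨by rw [SetLike.mem_coe, LinearMap.mem_ker, LinearMap.sub_apply, LinearMap.id_apply, hgv,
        sub_self], hv⟩
    rw [hKI] at h1
    exact h1
  have hjI : j ∣ Module.finrank F (LinearMap.range (g - LinearMap.id)) :=
    orderOf_dvd_of_pow_eq_one (pow_eq_one_of_free g hgr _ hinvI hfreeI)
  have hIeq : Module.finrank F (LinearMap.range (g - LinearMap.id)) = 2 * m - c := by omega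
  have hIpos : 0 < Module.finrank F (LinearMap.range (g - LinearMap.id)) := by
    rw [Module.finrank_pos_iff_exists_ne_zero]
    push Not at hg
    obtain ⟨v, hv⟩ := hg
    refine ⟨⟨g v - v, ⟨v, rfl⟩⟩, ?_⟩
    intro h
    exact hv (sub_eq_zero.mp (congrArg Subtype.val h))
  have hmain : 3 ≤ c → 4 ∣ c ∧ c ≤ m ∧ 2 * j ∣ 2 * m - c := by
    intro h3
    obtain ⟨h4, ⟨W, hW, hWg⟩, hhalf⟩ := X.main_semi g h2 hS hfr hgQ hgS hKI h3
    refine ⟨h4, ?_, ?_⟩
    · have h5 := X.fix_le g h2 hS hne hfr hgQ hgS hg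
      have h6 : LinearMap.ker (g - LinearMap.id) ≤ Module.End.eigenspace g (1 : F) := by
        intro v hv
        rw [LinearMap.mem_ker, LinearMap.sub_apply, LinearMap.id_apply, sub_eq_zero] at hv
        exact (mem_plus g).mpr hv
      exact (Submodule.finrank_mono h6).trans h5
    · have h5 := split_semi g hKI hWg
      rw [(hS.1 W hW).2] at h5
      have h6 : 2 * Module.finrank F (W ⊓ LinearMap.ker (g - LinearMap.id) : Submodule F V) = c :=
        hhalf W hW hWg
      have hgW : ∀ v ∈ W, g v ∈ W := by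
        intro v hv
        have : g v ∈ W.map g := Submodule.mem_map_of_mem hv
        rwa [hWg] at this
      have h7 : j ∣ Module.finrank F (W ⊓ LinearMap.range (g - LinearMap.id) : Submodule F V) :=
        orderOf_dvd_of_pow_eq_one (pow_eq_one_of_free g hgr _
          (fun v hv => ⟨hgW v hv.1, hinvI v hv.2⟩) (fun v hv => hfreeI v hv.2))
      obtain ⟨b, hb⟩ := h7
      refine ⟨b, ?_⟩
      have h8 : 2 * m - c = 2 * Module.finrank F
          (W ⊓ LinearMap.range (g - LinearMap.id) : Submodule F V) := by omega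
      rw [h8, hb, mul_assoc]
  refine ⟨by rw [← hIeq]; exact hjI, hmain, ?_⟩
  intro hmj
  by_contra hlt
  push Not at hlt
  rw [hIeq] at hjI hIpos
  obtain ⟨b, hb⟩ := hjI
  have hb0 : b ≠ 0 := by
    rintro rfl
    rw [hb, mul_zero] at hIpos
    exact lt_irrefl _ hIpos
  have hb1 : b = 1 := by
    by_contra hb1
    have h3 : 2 ≤ b := by omega
    have h4 : j * 2 ≤ j * b := Nat.mul_le_mul_left j h3
    omega
  rw [hb1, mul_one] at hb
  have hc3 : 3 ≤ c := by omega
  obtain ⟨-, -, d, hd⟩ := hmain hc3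
  rw [hb] at hd
  have hj0 : 0 < j := by omega
  have hd0 : d ≠ 0 := by
    rintro rfl
    rw [mul_zero] at hd
    omega
  have h9 : 2 * j * 1 ≤ 2 * j * d := Nat.mul_le_mul_left _ (by omega)
  omega

end QS

end SPR24
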