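import Mathlib
import Pool.Agent.SPR24.Prime
import Pool.Agent.SPR24.Hyp
import Pool.Agent.SPR24.Defs

/-! # Counting singular vectors -/

namespace SPR24

variable {F : Type} [Field F] [Fintype F]

/-- The number of vectors `y` with `x · y = 0`, for `x ≠ 0`. -/
theorem card_perp {m : ℕ} (x : Fin m → F) (hx : x ≠ 0) :
    Nat.card {y : Fin m → F // ∑ i, x i * y i = 0} = Fintype.card F ^ (m - 1) := by
  classical
  let φ : (Fin m → F) →ₗ[F] F :=
    { toFun := fun y => ∑ i, x i * y i
      map_add' := by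
        intro y z
        rw [← Finset.sum_add_distrib]
        exact Finset.sum_congr rfl (fun i _ => by rw [Pi.add_apply]; ring)
      map_smul' := by
        intro c y
        rw [RingHom.id_apply, smul_eq_mul, Finset.mul_sum]
        exact Finset.sum_congr rfl (fun i _ => by rw [Pi.smul_apply, smul_eq_mul]; ring) }
  have hsurj : LinearMap.range φ = ⊤ := by
    rw [LinearMap.range_eq_top]
    intro c
    obtain ⟨i, hi⟩ : ∃ i, x i ≠ 0 := by
      by_contra hcon
      push Not at hcon
      exact hx (funext hcon)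
    refine ⟨Pi.single i (c / x i), ?_⟩
    change ∑ k, x k * (Pi.single i (c / x i) : Fin m → F) k = c
    rw [Finset.sum_eq_single i]
    · rw [Pi.single_eq_same, mul_div_cancel₀ _ hi]
    · intro k _ hk
      rw [Pi.single_eq_of_ne hk, mul_zero]
    · intro h; exact absurd (Finset.mem_univ i) h
  have h1 := LinearMap.finrank_range_add_finrank_ker φ
  rw [hsurj, finrank_top, Module.finrank_self, Module.finrank_fin_fun] at h1
  have h2 : Nat.card (LinearMap.ker φ) = Fintype.card F ^ (m - 1) := by
    rw [Module.natCard_eq_pow_finrank (K := F), Nat.card_eq_fintype_card]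
    congr 1
    omega
  rw [← h2]
  exact Nat.card_congr (Equiv.refl _)

/-- The number of singular vectors of the hyperbolic form. -/
theorem card_singular (m : ℕ) :
    Nat.card {v : (Fin m → F) × (Fin m → F) // qf v = 0} =
      Fintype.card F ^ m + (Fintype.card F ^ m - 1) * Fintype.card F ^ (m - 1) := by
  classical
  let e : {v : (Fin m → F) × (Fin m → F) // qf v = 0} ≃
      Σ x : Fin m → F, {y : Fin m → F // ∑ i, x i * y i = 0} :=
    { toFun := fun v => ⟨v.1.1, ⟨v.1.2, v.2⟩⟩
      invFun := fun s => ⟨(s.1, s.2.1), s.2.2⟩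
      left_inv := fun v => rfl
      right_inv := fun s => rfl }
  rw [Nat.card_congr e, Nat.card_sigma]
  rw [← Finset.add_sum_erase Finset.univ _ (Finset.mem_univ (0 : Fin m → F))]
  have h0 : Nat.card {y : Fin m → F // ∑ i, (0 : Fin m → F) i * y i = 0} =
      Fintype.card F ^ m := by
    have h1 : Nat.card {y : Fin m → F // ∑ i, (0 : Fin m → F) i * y i = 0} =
        Nat.card (Fin m → F) := by
      apply Nat.card_congr
      exact { toFun := fun y => y.1
              invFun := fun y => ⟨y, by simp⟩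
              left_inv := fun y => rfl
              right_inv := fun y => rfl }
    rw [h1, Nat.card_eq_fintype_card, Fintype.card_fun, Fintype.card_fin]
  rw [h0]
  congr 1
  rw [Finset.sum_congr rfl (fun x hx => card_perp x (Finset.ne_of_mem_erase hx)),
    Finset.sum_const, smul_eq_mul, Finset.card_erase_of_mem (Finset.mem_univ _),
    Finset.card_univ, Fintype.card_fun, Fintype.card_fin]

theorem fixed_singular_zero {m r : ℕ} (h2 : (2 : F) ≠ 0) (hr0 : (r : F) ≠ 0) (g : EndV F m)
    (hgQ : ∀ v, qf (g v) = qf v) (hgr : g ^ r = 1)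
    (hc : Module.finrank F (LinearMap.ker (g - LinearMap.id)) ≤ 1)
    (v : (Fin m → F) × (Fin m → F)) (hv : g v = v) (hQ : qf v = 0) : v = 0 := by
  by_contra hv0
  apply hv0
  have hKI := QS.semi_of_prime g hr0 hgr
  have hmem : ∀ v, v ∈ LinearMap.ker (g - LinearMap.id) ↔ g v = v := by
    intro v
    rw [LinearMap.mem_ker, LinearMap.sub_apply, LinearMap.id_apply, sub_eq_zero]
  have hsup : LinearMap.ker (g - LinearMap.id) ⊔ LinearMap.range (g - LinearMap.id) = ⊤ := by
    apply Submodule.eq_top_of_finrank_eq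
    have h3 := Submodule.finrank_sup_add_finrank_inf_eq (LinearMap.ker (g - LinearMap.id))
      (LinearMap.range (g - LinearMap.id))
    have h4 := LinearMap.finrank_range_add_finrank_ker (g - LinearMap.id)
    rw [hKI, finrank_bot] at h3
    omega
  apply (hyp F m).nd
  intro w
  have hw : w ∈ LinearMap.ker (g - LinearMap.id) ⊔ LinearMap.range (g - LinearMap.id) := by
    rw [hsup]; trivial
  obtain ⟨a, ha, b, ⟨u, rfl⟩, rfl⟩ := Submodule.mem_sup.mp hw
  have hb : (hyp F m).B v ((g - LinearMap.id : EndV F m) u) = 0 := by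
    rw [LinearMap.sub_apply, LinearMap.id_apply, map_sub]
    have h4 := (hyp F m).tB g hgQ v u
    rw [hv] at h4
    rw [h4, sub_self]
  rw [map_add, hb, add_zero]
  obtain ⟨⟨z, hz⟩, hz'⟩ := (finrank_le_one_iff).mp hc
  obtain ⟨c1, hc1⟩ := hz' ⟨v, (hmem v).mpr hv⟩
  obtain ⟨c2, hc2⟩ := hz' ⟨a, ha⟩
  have h5 : c1 • z = v := congrArg Subtype.val hc1
  have h6 : c2 • z = a := congrArg Subtype.val hc2
  have hc10 : c1 ≠ 0 := by
    rintro rfl
    rw [zero_smul] at h5
    exact hv0 h5.symm
  have h7 : (hyp F m).Q (c1 • z) = 0 := by rw [h5]; exact hQ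
  rw [(hyp F m).Qsmul h2] at h7
  have h8 : (hyp F m).Q z = 0 :=
    (mul_eq_zero.mp h7).resolve_left (mul_ne_zero hc10 hc10)
  have h9 : (hyp F m).B z z = 0 := by rw [(hyp F m).diag, h8, mul_zero]
  rw [← h5, ← h6]
  simp only [map_smul, LinearMap.smul_apply, h9, smul_zero]

/-- Isometries of prime order without nonzero singular fixed vector. -/
theorem order_of_free {m r : ℕ} [hr : Fact r.Prime] (hm : 2 ≤ m) (h2 : (2 : F) ≠ 0)
    (hr0 : (r : F) ≠ 0) (g : EndV F m)
    (hgQ : ∀ v, qf (g v) = qf v) (hgr : g ^ r = 1)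
    (hc : Module.finrank F (LinearMap.ker (g - LinearMap.id)) ≤ 1) :
    orderOf ((Fintype.card F : ℕ) : ZMod r) ≤ 2 * m - 2 := by
  classical
  let f : {v : (Fin m → F) × (Fin m → F) // qf v = 0} →
      {v : (Fin m → F) × (Fin m → F) // qf v = 0} := fun v => ⟨g v, by rw [hgQ]; exact v.2⟩
  have hit : ∀ (k : ℕ) (v : {v : (Fin m → F) × (Fin m → F) // qf v = 0}),
      ((f^[k] v : {v : (Fin m → F) × (Fin m → F) // qf v = 0}) : (Fin m → F) × (Fin m → F)) =
        (g ^ k) (v : (Fin m → F) × (Fin m → F)) := by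
    intro k
    induction k with
    | zero => intro v; rfl
    | succ k ih =>
      intro v
      rw [Function.iterate_succ_apply, ih, pow_succ, Module.End.mul_apply]
  have h1 := card_cast_eq_one (r := r) f
    (fun a => Subtype.ext (by rw [hit, hgr]; rfl)) ⟨0, by simp [qf]⟩
    (Subtype.ext (by change g 0 = 0; exact map_zero g))
    (fun a ha => Subtype.ext (fixed_singular_zero h2 hr0 g hgQ hgr hc a
      (congrArg Subtype.val ha) a.2))
  rw [← Nat.card_eq_fintype_card, card_singular] at h1
  have hq : 1 ≤ Fintype.card F ^ m := Nat.one_le_pow _ _ Fintype.card_pos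
  rw [Nat.cast_add, Nat.cast_mul, Nat.cast_sub hq, Nat.cast_pow, Nat.cast_pow, Nat.cast_one] at h1
  have h3 : (((Fintype.card F : ℕ) : ZMod r) ^ m - 1) *
      (((Fintype.card F : ℕ) : ZMod r) ^ (m - 1) + 1) = 0 := by
    linear_combination h1
  rcases mul_eq_zero.mp h3 with h4 | h4
  · have h5 := orderOf_dvd_of_pow_eq_one (sub_eq_zero.mp h4)
    have := Nat.le_of_dvd (by omega) h5
    omega
  · have h5 : ((Fintype.card F : ℕ) : ZMod r) ^ (2 * m - 2) = 1 := by
      have h6 : 2 * m - 2 = (m - 1) * 2 := by omega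
      rw [h6, pow_mul, eq_neg_of_add_eq_zero_left h4]
      ring
    exact Nat.le_of_dvd (by omega) (orderOf_dvd_of_pow_eq_one h5)

end SPR24
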