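import Mathlib
import Pool.Agent.SPR24.Defs

/-! # Elementary abelian 2-groups preserving a spread: definition -/

namespace SPR24

variable {F : Type} [Field F] {m : ℕ}

/-- A finite set of isometries with square `1` preserving `S` that is closed under composition. -/
def IsTwoGroup (S : Set (Submodule F ((Fin m → F) × (Fin m → F)))) (A : Finset (EndV F m)) :
    Prop :=
  (∀ s ∈ A, IsAut S s ∧ ∀ v, s (s v) = v) ∧ ∀ s ∈ A, ∀ s' ∈ A, s.comp s' ∈ A

end SPR24
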