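import Mathlib
import Pool.Agent.SPR24.Inv3

/-! # Involutions preserving a spread of a hyperbolic quadric: the theorem -/

namespace SPR24

namespace QS

variable {F V : Type} [Field F] [AddCommGroup V] [Module F V] [FiniteDimensional F V]
  {X : QS F V} {m : ℕ} {S : Set (Submodule F V)} (t : V →ₗ[F] V)

/-- If the `-1`-eigenspace or the `1`-eigenspace has dimension larger than `m`, all members are
fixed. -/
theorem eig_le (h2 : (2 : F) ≠ 0) (hS : X.Spr m S) (hm : 0 < m) (hne : S.Nonempty)
    (hfr : Module.finrank F V = 2 * m)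
    (ht2 : ∀ v, t (t v) = v) (htQ : ∀ v, X.Q (t v) = X.Q v) (ht : ∀ W ∈ S, W.map t ∈ S)
    (h1 : ¬ ∀ v, t v = v) (h3 : ¬ ∀ v, t v = -v) :
    Module.finrank F (Module.End.eigenspace t (1 : F)) = m ∧
      Module.finrank F (Module.End.eigenspace t (-1 : F)) = m := by
  have hmeet : ∀ U : Submodule F V, m < Module.finrank F U → ∀ W ∈ S, ∃ v ∈ W, v ∈ U ∧ v ≠ 0 := by
    intro U hU W hW
    have hWU : W ⊓ U ≠ ⊥ := by
      intro hbot
      have h4 := Submodule.finrank_sup_add_finrank_inf_eq W U
      rw [hbot, finrank_bot, (hS.1 W hW).2] at h4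
      have h5 := Submodule.finrank_le (W ⊔ U)
      omega
    obtain ⟨v, hv, hv0⟩ := Submodule.exists_mem_ne_zero_of_ne_bot hWU
    exact ⟨v, hv.1, hv.2, hv0⟩
  have hno : ¬ ∀ W ∈ S, W.map t = W := by
    intro h
    rcases all_fixed t h2 hS hm hne ht2 htQ h with h' | h'
    · exact h1 h'
    · exact h3 h'
  have hp : Module.finrank F (Module.End.eigenspace t (1 : F)) ≤ m := by
    by_contra hcon
    push Not at hcon
    apply hno
    intro W hW
    obtain ⟨v, hvW, hvU, hv0⟩ := hmeet _ hcon W hW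
    exact fixed_of_plus t hS ht hW hv0 hvW ((mem_plus t).mp hvU)
  have hn : Module.finrank F (Module.End.eigenspace t (-1 : F)) ≤ m := by
    by_contra hcon
    push Not at hcon
    apply hno
    intro W hW
    obtain ⟨v, hvW, hvU, hv0⟩ := hmeet _ hcon W hW
    exact fixed_of_minus t hS ht hW hv0 hvW ((mem_minus t).mp hvU)
  have hc := compl_eig t h2 ht2
  omega

/-- **Main theorem, abstract form.** -/
theorem main [Fintype F] (h2 : (2 : F) ≠ 0) (hS : X.Spr m S) (hne : S.Nonempty)
    (hfr : Module.finrank F V = 2 * m) {k : ℕ} (hmk : m = 2 * k) (hk : 2 ≤ k)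
    (ht2 : ∀ v, t (t v) = v) (htQ : ∀ v, X.Q (t v) = X.Q v) (ht : ∀ W ∈ S, W.map t ∈ S)
    (h1 : ¬ ∀ v, t v = v) (h3 : ¬ ∀ v, t v = -v) :
    Even k ∧ Module.finrank F (Module.End.eigenspace t (1 : F)) = m ∧
      Module.finrank F (Module.End.eigenspace t (-1 : F)) = m ∧
      ∀ W ∈ S, W.map t = W →
        Module.finrank F (W ⊓ Module.End.eigenspace t (1 : F) : Submodule F V) = k ∧
        Module.finrank F (W ⊓ Module.End.eigenspace t (-1 : F) : Submodule F V) = k := by
  have hm : 0 < m := by omega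
  obtain ⟨hP, hN⟩ := eig_le t h2 hS hm hne hfr ht2 htQ ht h1 h3
  set P := Module.End.eigenspace t (1 : F) with hPdef
  set N := Module.End.eigenspace t (-1 : F) with hNdef
  -- first singular vector of `P`
  obtain ⟨u, huP, hu0, hQu⟩ := X.exists_singular h2 P (by omega)
  have htu : t u = u := (mem_plus t).mp huP
  have hex : ∃ w, t w = w ∧ X.B u w ≠ 0 := by
    by_contra hcon
    push Not at hcon
    exact hu0 (X.nd_plus t h2 ht2 htQ htu hcon)
  obtain ⟨w0, hw0, hBw0⟩ := hex
  -- the hyperbolic partner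
  obtain ⟨w1, hw1, hBw1⟩ : ∃ w, t w = w ∧ X.B u w = 1 := by
    refine ⟨(X.B u w0)⁻¹ • w0, by rw [map_smul, hw0], ?_⟩
    rw [map_smul, smul_eq_mul, inv_mul_cancel₀ hBw0]
  have hBuu : X.B u u = 0 := by rw [X.diag, hQu, mul_zero]
  obtain ⟨u', htu', hBuu', hQu'⟩ : ∃ w, t w = w ∧ X.B u w = 1 ∧ X.Q w = 0 := by
    refine ⟨w1 + (-X.Q w1) • u, by rw [map_add, map_smul, hw1, htu], ?_, ?_⟩
    · rw [map_add, map_smul, hBw1, hBuu, smul_zero, add_zero]
    · rw [X.add, X.Qsmul h2, hQu, map_smul, X.symm w1 u, hBw1, smul_eq_mul]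
      ring
  have hu'0 : u' ≠ 0 := by
    intro h; rw [h, map_zero] at hBuu'; exact zero_ne_one hBuu'
  have hBu'u' : X.B u' u' = 0 := by rw [X.diag, hQu', mul_zero]
  -- a nonsingular vector orthogonal to both
  obtain ⟨x, hx, hxu, hxu', hQx⟩ : ∃ x, t x = x ∧ X.B x u = 0 ∧ X.B x u' = 0 ∧ X.Q x ≠ 0 := by
    by_contra hcon
    push Not at hcon
    have hspan : P ≤ Submodule.span F ({u, u'} : Set V) := by
      intro w hw
      have htw : t w = w := (mem_plus t).mp hw
      -- general projection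
      have hproj : ∀ v, t v = v → t (v + (-X.B v u') • u + (-X.B v u) • u') =
            v + (-X.B v u') • u + (-X.B v u) • u' ∧
          X.B (v + (-X.B v u') • u + (-X.B v u) • u') u = 0 ∧
          X.B (v + (-X.B v u') • u + (-X.B v u) • u') u' = 0 := by
        intro v hv
        refine ⟨?_, ?_, ?_⟩
        · simp only [map_add, map_smul, hv, htu, htu']
        · simp only [map_add, map_smul, LinearMap.add_apply, LinearMap.smul_apply, hBuu,
            X.symm u' u, hBuu', smul_eq_mul]
          ring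
        · simp only [map_add, map_smul, LinearMap.add_apply, LinearMap.smul_apply, hBu'u',
            hBuu', smul_eq_mul]
          ring
      obtain ⟨hz1, hz2, hz3⟩ := hproj w htw
      set z := w + (-X.B w u') • u + (-X.B w u) • u' with hz
      have hz0 : z = 0 := by
        apply X.nd_plus t h2 ht2 htQ hz1
        intro v hv
        obtain ⟨hy1, hy2, hy3⟩ := hproj v hv
        set y := v + (-X.B v u') • u + (-X.B v u) • u' with hy
        have hBzy : X.B z y = 0 := by
          have h4 := X.add z y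
          rw [hcon z hz1 hz2 hz3, hcon y hy1 hy2 hy3,
            hcon (z + y) (by rw [map_add, hz1, hy1])
              (by rw [map_add, LinearMap.add_apply, hz2, hy2, add_zero])
              (by rw [map_add, LinearMap.add_apply, hz3, hy3, add_zero])] at h4
          linear_combination -h4
        have hv' : v = y + X.B v u' • u + X.B v u • u' := by
          rw [hy, neg_smul, neg_smul]; abel
        rw [hv', map_add, map_add, map_smul, map_smul, hBzy, hz2, hz3, smul_zero, smul_zero,
          add_zero, add_zero]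
      have hw' : w = X.B w u' • u + X.B w u • u' := by
        have h5 : w = z + X.B w u' • u + X.B w u • u' := by
          rw [hz, neg_smul, neg_smul]; abel
        rw [hz0, zero_add] at h5
        exact h5
      rw [hw']
      apply Submodule.add_mem
      · exact Submodule.smul_mem _ _ (Submodule.subset_span (by simp))
      · exact Submodule.smul_mem _ _ (Submodule.subset_span (by simp))
    have h6 := Submodule.finrank_mono hspan
    have h7 : Module.finrank F (Submodule.span F ({u, u'} : Set V)) ≤ 2 := by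
      classical
      have := finrank_span_finset_le_card (R := F) ({u, u'} : Finset V)
      rw [Finset.coe_insert, Finset.coe_singleton] at this
      exact this.trans Finset.card_le_two
    omega
  -- third singular vector
  have hBxu : X.B u x = 0 := by rw [X.symm]; exact hxu
  have hBxu' : X.B u' x = 0 := by rw [X.symm]; exact hxu'
  obtain ⟨v, htv, hQv, hBvu', hBvu⟩ : ∃ v, t v = v ∧ X.Q v = 0 ∧ X.B v u' ≠ 0 ∧ X.B v u ≠ 0 := by
    refine ⟨u + (-X.Q x) • u' + x, by simp only [map_add, map_smul, htu, htu', hx], ?_, ?_, ?_⟩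
    · rw [X.add, X.add, X.Qsmul h2, hQu, hQu']
      simp only [map_add, map_smul, LinearMap.add_apply, LinearMap.smul_apply, hBuu', hBxu,
        hBxu', smul_eq_mul]
      ring
    · simp only [map_add, map_smul, LinearMap.add_apply, LinearMap.smul_apply, hBuu', hBu'u',
        hxu', smul_eq_mul]
      simp
    · simp only [map_add, map_smul, LinearMap.add_apply, LinearMap.smul_apply, hBuu,
        X.symm u' u, hBuu', hxu, smul_eq_mul]
      simpa using hQx
  have hv0 : v ≠ 0 := by
    intro h; rw [h, map_zero, LinearMap.zero_apply] at hBvu; exact hBvu rfl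
  obtain ⟨W1, ⟨hW1, huW1⟩, -⟩ := hS.2 u hu0 hQu
  obtain ⟨W2, ⟨hW2, huW2⟩, -⟩ := hS.2 u' hu'0 hQu'
  obtain ⟨W3, ⟨hW3, huW3⟩, -⟩ := hS.2 v hv0 hQv
  have hf1 := fixed_of_plus t hS ht hW1 hu0 huW1 htu
  have hf2 := fixed_of_plus t hS ht hW2 hu'0 huW2 htu'
  have hf3 := fixed_of_plus t hS ht hW3 hv0 huW3 htv
  have h12 : W1 ≠ W2 := by
    intro h
    rw [← h] at huW2
    have := X.tot (hS.1 W1 hW1).1 huW1 huW2
    rw [hBuu'] at this
    exact one_ne_zero this
  have h13 : W1 ≠ W3 := by
    intro h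
    rw [← h] at huW3
    exact hBvu (X.tot (hS.1 W1 hW1).1 huW3 huW1)
  have h23 : W2 ≠ W3 := by
    intro h
    rw [← h] at huW3
    exact hBvu' (X.tot (hS.1 W2 hW2).1 huW3 huW2)
  have hs1 : Module.finrank F (W1 ⊓ P : Submodule F V) +
      Module.finrank F (W1 ⊓ N : Submodule F V) = Module.finrank F W1 :=
    fixed_split t h2 ht2 hf1
  have hs2 : Module.finrank F (W2 ⊓ P : Submodule F V) +
      Module.finrank F (W2 ⊓ N : Submodule F V) = Module.finrank F W2 :=
    fixed_split t h2 ht2 hf2
  have hs3 : Module.finrank F (W3 ⊓ P : Submodule F V) +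
      Module.finrank F (W3 ⊓ N : Submodule F V) = Module.finrank F W3 :=
    fixed_split t h2 ht2 hf3
  rw [(hS.1 W1 hW1).2] at hs1
  rw [(hS.1 W2 hW2).2] at hs2
  rw [(hS.1 W3 hW3).2] at hs3
  have a12 := add_le_of_ne hS hW1 hW2 h12 P
  have a13 := add_le_of_ne hS hW1 hW3 h13 P
  have a23 := add_le_of_ne hS hW2 hW3 h23 P
  have b12 := add_le_of_ne hS hW1 hW2 h12 N
  have b13 := add_le_of_ne hS hW1 hW3 h13 N
  have b23 := add_le_of_ne hS hW2 hW3 h23 N
  have e1 : Module.finrank F (W1 ⊓ P : Submodule F V) = k := by omega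
  have e2 : Module.finrank F (W2 ⊓ P : Submodule F V) = k := by omega
  have e3 : Module.finrank F (W3 ⊓ P : Submodule F V) = k := by omega
  have e1' : Module.finrank F (W1 ⊓ N : Submodule F V) = k := by omega
  have e2' : Module.finrank F (W2 ⊓ N : Submodule F V) = k := by omega
  refine ⟨?_, hP, hN, ?_⟩
  · have hd : ∀ {A B : Submodule F V}, A ∈ S → B ∈ S → A ≠ B → (A ⊓ P) ⊓ (B ⊓ P) = ⊥ := by
      intro A B hA hB hAB
      rw [Submodule.eq_bot_iff]
      intro z hz
      have : z ∈ A ⊓ B := ⟨hz.1.1, hz.2.1⟩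
      rw [hS.inf hA hB hAB] at this
      exact this
    apply X.even_of_three h2 (U := P) (A1 := W1 ⊓ P) (A2 := W2 ⊓ P) (A3 := W3 ⊓ P)
      inf_le_right inf_le_right inf_le_right
      (fun z hz => (hS.1 W1 hW1).1 z hz.1) (fun z hz => (hS.1 W2 hW2).1 z hz.1)
      (fun z hz => (hS.1 W3 hW3).1 z hz.1) (hd hW1 hW2 h12) (hd hW1 hW3 h13) (hd hW2 hW3 h23)
      e1 e2 e3 (by omega)
    intro z hz hzw
    apply X.nd_plus t h2 ht2 htQ ((mem_plus t).mp hz)
    intro w hw
    exact hzw w ((mem_plus t).mpr hw)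
  · intro W hW hfix
    have hs : Module.finrank F (W ⊓ P : Submodule F V) +
        Module.finrank F (W ⊓ N : Submodule F V) = Module.finrank F W :=
      fixed_split t h2 ht2 hfix
    rw [(hS.1 W hW).2] at hs
    by_cases hW1' : W = W1
    · rw [hW1']; exact ⟨e1, e1'⟩
    · have c1 := add_le_of_ne hS hW hW1 hW1' P
      have c2 := add_le_of_ne hS hW hW1 hW1' N
      constructor <;> omega

end QS

end SPR24
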