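import Mathlib
import Pool.Agent.SPR24.Inv4
import Pool.Agent.SPR24.Semi

/-! # Elementary abelian 2-groups preserving a spread -/

namespace SPR24

namespace QS

variable {F : Type} [Field F]

/-- The restriction of the form to the fixed space of an isometric involution. -/
def plusQS (h2 : (2 : F) ≠ 0) {V : Type} [AddCommGroup V] [Module F V] (X : QS F V)
    (t : V →ₗ[F] V) (ht2 : ∀ v, t (t v) = v) (htQ : ∀ v, X.Q (t v) = X.Q v) :
    QS F (Module.End.eigenspace t (1 : F)) where
  Q := fun v => X.Q (v : V)
  B := X.B.domRestrict₁₂ (Module.End.eigenspace t (1 : F)) (Module.End.eigenspace t (1 : F))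
  add := fun v w => X.add v w
  diag := fun v => X.diag v
  nd := by
    intro v hv
    apply Subtype.ext
    apply X.nd_plus t h2 ht2 htQ ((mem_plus t).mp v.2)
    intro w hw
    exact hv ⟨w, (mem_plus t).mpr hw⟩

theorem two_rank [Fintype F] (h2 : (2 : F) ≠ 0) {u : ℕ} (hu : Odd u) (hu3 : 3 ≤ u) :
    ∀ (a : ℕ) (V : Type) [AddCommGroup V] [Module F V] [FiniteDimensional F V] (X : QS F V)
      (m : ℕ) (S : Set (Submodule F V)), m = 2 ^ a * u → X.Spr m S →
      Module.finrank F V = 2 * m →
      ∀ A : Finset (V →ₗ[F] V),
        (∀ s ∈ A, (∀ v, s (s v) = v) ∧ (∀ v, X.Q (s v) = X.Q v) ∧ ∀ W ∈ S, W.map s ∈ S) →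
        (∀ s ∈ A, ∀ s' ∈ A, s.comp s' ∈ A) → A.card ≤ 2 ^ a := by
  classical
  intro a
  induction a with
  | zero =>
    intro V _ _ _ X m S hm hS hfr A hA hcl
    exfalso
    have h1 := X.main_semi (LinearMap.id : V →ₗ[F] V) h2 hS hfr (fun v => rfl)
      (fun W hW => by rw [Submodule.map_id]; exact hW)
      (by rw [sub_self, LinearMap.range_zero, inf_bot_eq])
      (by rw [sub_self, LinearMap.ker_zero, finrank_top, hfr]; omega)
    have h3 := h1.1
    rw [sub_self, LinearMap.ker_zero, finrank_top, hfr, hm, pow_zero, one_mul] at h3
    obtain ⟨b, hb⟩ := hu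
    omega
  | succ a ih =>
    intro V _ _ _ X m S hm hS hfr A hA hcl
    by_cases hpm : ∀ s ∈ A, s = LinearMap.id ∨ s = -LinearMap.id
    · have hsub : A ⊆ {LinearMap.id, -LinearMap.id} := by
        intro s hs
        rw [Finset.mem_insert, Finset.mem_singleton]
        exact hpm s hs
      calc A.card ≤ ({LinearMap.id, -LinearMap.id} : Finset (V →ₗ[F] V)).card :=
            Finset.card_le_card hsub
        _ ≤ 2 := Finset.card_le_two
        _ ≤ 2 ^ (a + 1) := by
            rw [pow_succ]
            have := Nat.one_le_two_pow (n := a)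
            omega
    · push Not at hpm
      obtain ⟨t, htA, ht1, htm1⟩ := hpm
      obtain ⟨ht2, htQ, htS⟩ := hA t htA
      have hupos : 0 < 2 ^ a * u := by positivity
      have hk2 : 2 ≤ 2 ^ a * u := by
        have := Nat.one_le_two_pow (n := a)
        nlinarith
      have hmk : m = 2 * (2 ^ a * u) := by rw [hm, pow_succ]; ring
      have hne : S.Nonempty := by
        obtain ⟨v, -, hv0, hQv⟩ := X.exists_singular h2 ⊤ (by rw [finrank_top, hfr]; omega)
        obtain ⟨W, ⟨hW, -⟩, -⟩ := hS.2 v hv0 hQv
        exact ⟨W, hW⟩
      have hmain : ∀ r ∈ A, r ≠ LinearMap.id → r ≠ -LinearMap.id → _ := fun r hr h1 h3 =>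
        main (X := X) r h2 hS hne hfr hmk hk2 (hA r hr).1 (hA r hr).2.1 (hA r hr).2.2
          (fun h => h1 (LinearMap.ext h)) (fun h => h3 (LinearMap.ext h))
      obtain ⟨-, hP, hN, hfix⟩ := hmain t htA ht1 htm1
      -- commutation
      have hcomm : ∀ s ∈ A, ∀ v, s (t v) = t (s v) := by
        intro s hs v
        have h1 := (hA _ (hcl s hs t htA)).1 v
        change s (t (s (t v))) = v at h1
        have h3 : t (s (t v)) = s v := by
          rw [← (hA s hs).1 (t (s (t v))), h1]
        rw [← h3, ht2]
      have hsP : ∀ s ∈ A, ∀ v ∈ Module.End.eigenspace t (1 : F),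
          s v ∈ Module.End.eigenspace t (1 : F) := by
        intro s hs v hv
        rw [mem_plus] at hv ⊢
        rw [← hcomm s hs, hv]
      let restr : (V →ₗ[F] V) → (Module.End.eigenspace t (1 : F) →ₗ[F]
          Module.End.eigenspace t (1 : F)) := fun s =>
        if h : ∀ v ∈ Module.End.eigenspace t (1 : F), s v ∈ Module.End.eigenspace t (1 : F)
        then s.restrict h else 0
      have hrestr : ∀ s ∈ A, ∀ v : Module.End.eigenspace t (1 : F),
          ((restr s v : Module.End.eigenspace t (1 : F)) : V) = s (v : V) := by
        intro s hs v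
        simp only [restr, dif_pos (hsP s hs)]
        rfl
      let SP : Set (Submodule F (Module.End.eigenspace t (1 : F))) :=
        {W' | ∃ W ∈ S, W.map t = W ∧ W' = W.comap (Module.End.eigenspace t (1 : F)).subtype}
      have hSP : (plusQS h2 X t ht2 htQ).Spr (2 ^ a * u) SP := by
        constructor
        · rintro _ ⟨W, hW, hWt, rfl⟩
          refine ⟨fun v hv => (hS.1 W hW).1 _ hv, ?_⟩
          rw [← Submodule.finrank_map_subtype_eq, Submodule.map_comap_subtype, inf_comm]
          exact (hfix W hW hWt).1
        · intro v hv0 hQv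
          have hv0' : (v : V) ≠ 0 := fun h => hv0 (Subtype.ext h)
          obtain ⟨W, ⟨hW, hvW⟩, huniq⟩ := hS.2 (v : V) hv0' hQv
          have hWt := fixed_of_plus t hS htS hW hv0' hvW ((mem_plus t).mp v.2)
          refine ⟨W.comap (Module.End.eigenspace t (1 : F)).subtype, ⟨⟨W, hW, hWt, rfl⟩, hvW⟩, ?_⟩
          rintro _ ⟨⟨W2, hW2, hW2t, rfl⟩, hvW2⟩
          rw [huniq W2 ⟨hW2, hvW2⟩]
      have hIH := ih (Module.End.eigenspace t (1 : F)) (plusQS h2 X t ht2 htQ) (2 ^ a * u) SP rfl
        hSP (by rw [hP, hmk]) (A.image restr) (by
          intro s' hs'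
          obtain ⟨s, hs, rfl⟩ := Finset.mem_image.mp hs'
          obtain ⟨hs2, hsQ, hsS⟩ := hA s hs
          refine ⟨?_, ?_, ?_⟩
          · intro v
            apply Subtype.ext
            rw [hrestr s hs, hrestr s hs, hs2]
          · intro v
            change X.Q ((restr s v : Module.End.eigenspace t (1 : F)) : V) = X.Q (v : V)
            rw [hrestr s hs, hsQ]
          · rintro _ ⟨W, hW, hWt, rfl⟩
            refine ⟨W.map s, hsS W hW, ?_, ?_⟩
            · ext v
              constructor
              · rintro ⟨_, ⟨w, hw, rfl⟩, rfl⟩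
                refine ⟨t w, ?_, hcomm s hs w⟩
                have : t w ∈ W.map t := Submodule.mem_map_of_mem hw
                rwa [hWt] at this
              · rintro ⟨w, hw, rfl⟩
                refine ⟨s (t w), ⟨t w, ?_, rfl⟩, ?_⟩
                · have : t w ∈ W.map t := Submodule.mem_map_of_mem hw
                  rwa [hWt] at this
                · rw [hcomm s hs, ht2]
            · ext v
              constructor
              · rintro ⟨w, hw, rfl⟩
                exact ⟨(w : V), hw, (hrestr s hs w).symm⟩
              · rintro ⟨w, hw, hwv⟩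
                have hw' : s (v : V) = w := by
                  have h1 : (v : V) = s w := hwv.symm
                  rw [h1, hs2]
                refine ⟨⟨w, ?_⟩, hw, ?_⟩
                · rw [← hw']
                  exact hsP s hs _ v.2
                · apply Subtype.ext
                  rw [hrestr s hs]
                  exact hwv)
        (by
          intro s1 hs1 s2 hs2
          obtain ⟨s, hs, rfl⟩ := Finset.mem_image.mp hs1
          obtain ⟨s', hs', rfl⟩ := Finset.mem_image.mp hs2
          refine Finset.mem_image.mpr ⟨s.comp s', hcl s hs s' hs', ?_⟩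
          ext v
          rw [hrestr _ (hcl s hs s' hs'), LinearMap.comp_apply, LinearMap.comp_apply,
            hrestr s hs, hrestr s' hs'])
      -- elements acting trivially on the fixed space of `t`
      have hker : ∀ r ∈ A, (∀ v ∈ Module.End.eigenspace t (1 : F), r v = v) →
          r = LinearMap.id ∨ r = t := by
        intro r hr hrP
        by_cases hr1 : r = LinearMap.id
        · exact Or.inl hr1
        right
        obtain ⟨v0, hv0P, hv00⟩ := Submodule.exists_mem_ne_zero_of_ne_bot
          (p := Module.End.eigenspace t (1 : F)) (by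
            intro h; rw [h, finrank_bot] at hP; omega)
        have hrm1 : r ≠ -LinearMap.id := by
          intro h
          have h3 := hrP v0 hv0P
          rw [h, LinearMap.neg_apply, LinearMap.id_apply] at h3
          have h4 : (2 : F) • v0 = 0 := by
            rw [two_smul]
            nth_rewrite 1 [← h3]
            rw [neg_add_cancel]
          exact hv00 ((smul_eq_zero.mp h4).resolve_left h2)
        obtain ⟨-, hP', -, -⟩ := hmain r hr hr1 hrm1
        obtain ⟨hr2, hrQ, hrS⟩ := hA r hr
        have hEq : Module.End.eigenspace t (1 : F) = Module.End.eigenspace r (1 : F) := by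
          apply Submodule.eq_of_le_of_finrank_eq
          · intro v hv
            rw [mem_plus]
            exact hrP v hv
          · rw [hP, hP']
        have hNr : ∀ v, t v = -v → r v = -v := by
          intro v hv
          obtain ⟨x, y, hx, hy, hxy, -, -⟩ := decomp r hr2 h2 v
          have hx0 : x = 0 := by
            have hxt : t x = x := by
              rw [← mem_plus, hEq, mem_plus]; exact hx
            apply X.nd_plus t h2 ht2 htQ hxt
            intro w hw
            have hwr : r w = w := by
              rw [← mem_plus, ← hEq, mem_plus]; exact hw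
            have h3 := X.orth t htQ h2 hw hv
            have h4 := X.orth r hrQ h2 hwr hy
            rw [hxy, map_add, h4, add_zero] at h3
            rw [X.symm]; exact h3
          rw [hxy, hx0, zero_add]; exact hy
        apply LinearMap.ext
        intro v
        obtain ⟨x, y, hx, hy, hxy, -, -⟩ := decomp t ht2 h2 v
        rw [hxy, map_add, map_add, hx, hy, hrP x ((mem_plus t).mpr hx), hNr y hy]
      have hcard : A.card ≤ 2 * (A.image restr).card := by
        apply Finset.card_le_mul_card_image
        intro b hb
        obtain ⟨s0, hs0, rfl⟩ := Finset.mem_image.mp hb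
        have hsub : (A.filter fun x => restr x = restr s0) ⊆ {s0, s0.comp t} := by
          intro x hx
          rw [Finset.mem_filter] at hx
          obtain ⟨hxA, hxr⟩ := hx
          have h3 := hker (s0.comp x) (hcl s0 hs0 x hxA) (by
            intro v hv
            have h4 := hrestr x hxA ⟨v, hv⟩
            rw [hxr, hrestr s0 hs0] at h4
            change s0 v = x v at h4
            rw [LinearMap.comp_apply, ← h4, (hA s0 hs0).1])
          have h5 : x = s0.comp (s0.comp x) := by
            ext v
            rw [LinearMap.comp_apply, LinearMap.comp_apply, (hA s0 hs0).1]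
          rw [Finset.mem_insert, Finset.mem_singleton]
          rcases h3 with h3 | h3
          · left; rw [h5, h3, LinearMap.comp_id]
          · right; rw [h5, h3]
        exact (Finset.card_le_card hsub).trans Finset.card_le_two
      calc A.card ≤ 2 * (A.image restr).card := hcard
        _ ≤ 2 * 2 ^ a := Nat.mul_le_mul_left 2 hIH
        _ = 2 ^ (a + 1) := by rw [pow_succ]; ring

end QS

end SPR24
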