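import Mathlib
import Pool.Agent.SPR24.Defs
import Pool.Agent.SPR24.Hyp
import Pool.Agent.SPR24.Inv4

/-!
# Odd `q`: involutions preserving a spread of `Q⁺(4n+3,q)`

Let `S` be a spread of `Q⁺(4n+3,q)`, `q` odd, `n ≥ 1`, and `t` an isometry with `t² = 1`,
`t ≠ 1`, `t ≠ -1`, mapping members of `S` to members of `S`. Then `n` is odd, both eigenspaces of
`t` have dimension `2n+2`, and each member of `S` fixed by `t` meets both of them in a subspace of
dimension `n+1`. For even `n` there is no such `t`.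
-/

namespace SPR24.InvolutionSpread

open SPR24

theorem result {F : Type} [Field F] [Fintype F] (hq : Odd (Fintype.card F))
    (n m : ℕ) (hn : 1 ≤ n) (hm : m = 2 * n + 2)
    (S : Set (Submodule F ((Fin m → F) × (Fin m → F)))) (hS : IsSpread S)
    (t : EndV F m) (ht : IsAut S t) (hinv : IsInvol t) :
    Odd n ∧ vdim (fixSpace t) = m ∧ vdim (fixSpace (-t)) = m ∧
      ∀ W ∈ S, Fixes t W →
        meetDim W (fixSpace t) = n + 1 ∧ meetDim W (fixSpace (-t)) = n + 1 := by
  have h20 := two_ne_zero_of_odd hq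
  have hSp : (hyp F m).Spr m S := hS
  obtain ⟨ht2, ⟨v1, hv1⟩, ⟨v2, hv2⟩⟩ := hinv
  obtain ⟨he, hP, hN, hfix⟩ := QS.main (X := hyp F m) (k := n + 1) t h20 hSp
    (spread_nonempty (by omega) hS) finrank_V (by omega) (by omega) ht2 ht.1 ht.2
    (fun h => hv1 (h v1)) (fun h => hv2 (h v2))
  rw [← fixSpace_eq] at hP hfix
  rw [← fixSpace_neg_eq] at hN hfix
  refine ⟨?_, hP, hN, hfix⟩
  rcases Nat.even_or_odd n with h | h
  · exfalso
    obtain ⟨a, ha⟩ := h
    obtain ⟨b, hb⟩ := he
    omega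
  · exact h

end SPR24.InvolutionSpread
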